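import Mathlib

set_option autoImplicit false

/-!
# Capped functions on a finite set: the entropy budget and the bilinear lower bound
-/

namespace Pool.Agent.SQS

open Finset

noncomputable section

/-- capped deviation from `1` -/
def cp (t : ℝ) : ℝ := min (t - 1) 1

/-- the test function -/
def ft (t : ℝ) : ℝ := Real.log (1 + cp t / 4)

lemma cp_le_one (t : ℝ) : cp t ≤ 1 := min_le_right _ _

lemma cp_le (t : ℝ) : cp t ≤ t - 1 := min_le_left _ _

lemma neg_one_le_cp {t : ℝ} (ht : 0 ≤ t) : -1 ≤ cp t := by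
  unfold cp
  exact le_min (by linarith) (by norm_num)

lemma exp_ft {t : ℝ} (ht : 0 ≤ t) : Real.exp (ft t) = 1 + cp t / 4 := by
  unfold ft
  rw [Real.exp_log]
  have := neg_one_le_cp ht
  linarith

lemma log_quarter {x : ℝ} (h1 : -(1/4) ≤ x) : x - (4/3) * x ^ 2 ≤ Real.log (1 + x) := by
  have hpos : 0 < 1 + x := by linarith
  have h2 := Real.one_sub_inv_le_log_of_pos hpos
  refine le_trans ?_ h2
  have h3 : 1 - (1 + x)⁻¹ = x / (1 + x) := by
    field_simp
    ring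
  rw [h3, le_div_iff₀ hpos]
  by_cases hx : 0 ≤ x
  · nlinarith [mul_nonneg hx (mul_nonneg hx hx), mul_nonneg hx hx]
  · have hx := not_le.mp hx
    nlinarith [mul_nonneg (mul_self_nonneg x) (by linarith : (0:ℝ) ≤ x + 1/4), mul_self_nonneg x]

/-- The pointwise inequality. -/
lemma pointwise {t : ℝ} (ht : 0 ≤ t) :
    cp t / 4 + (cp t) ^ 2 / 12 + 3 / 16 * (t - 1 - cp t) ≤ t * ft t := by
  unfold ft
  by_cases h2 : t ≤ 2
  · have hc : cp t = t - 1 := by
      unfold cp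
      exact min_eq_left (by linarith)
    rw [hc]
    have h3 := log_quarter (x := (t - 1) / 4) (by linarith)
    have h4 : t * ((t - 1) / 4 - (4/3) * ((t - 1) / 4) ^ 2) ≤ t * Real.log (1 + (t - 1) / 4) :=
      mul_le_mul_of_nonneg_left h3 ht
    refine le_trans ?_ h4
    have h5 : 0 ≤ (t - 1) ^ 2 * (2 - t) := mul_nonneg (sq_nonneg _) (by linarith)
    nlinarith
  · have h2 := not_le.mp h2
    have hc : cp t = 1 := by
      unfold cp
      exact min_eq_right (by linarith)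
    rw [hc]
    have h3 := Real.one_sub_inv_le_log_of_pos (show (0:ℝ) < 1 + 1 / 4 by norm_num)
    have h4 : (1:ℝ)/5 ≤ Real.log (1 + 1 / 4) := by
      refine le_trans ?_ h3
      norm_num
    have h5 : t * (1/5) ≤ t * Real.log (1 + 1 / 4) := mul_le_mul_of_nonneg_left h4 ht
    refine le_trans ?_ h5
    nlinarith

/-- entropy budget of a function on a finite set -/
def kap (s : Finset ℕ) (g : ℕ → ℝ) : ℝ :=
  (∑ x ∈ s, g x * ft (g x)) / s.card - Real.log ((∑ x ∈ s, Real.exp (ft (g x))) / s.card)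

lemma sum_exp_ft (s : Finset ℕ) (g : ℕ → ℝ) (hg : ∀ x ∈ s, 0 ≤ g x) :
    ∑ x ∈ s, Real.exp (ft (g x)) = s.card + (∑ x ∈ s, cp (g x)) / 4 := by
  rw [Finset.sum_congr rfl (fun x hx => exp_ft (hg x hx)), Finset.sum_add_distrib,
    Finset.sum_const, nsmul_eq_mul, mul_one, Finset.sum_div]

lemma sum_exp_ft_pos (s : Finset ℕ) (g : ℕ → ℝ) (hs : s.Nonempty) :
    0 < ∑ x ∈ s, Real.exp (ft (g x)) :=
  Finset.sum_pos (fun _ _ => Real.exp_pos _) hs

/-- the budget controls the capped variance and the mass above the cap -/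
lemma kap_ge (s : Finset ℕ) (g : ℕ → ℝ) (hs : s.Nonempty) (hg : ∀ x ∈ s, 0 ≤ g x) :
    (∑ x ∈ s, ((cp (g x)) ^ 2 / 2 + (g x - 1 - cp (g x)))) ≤ 6 * kap s g * s.card := by
  have hc : (0:ℝ) < s.card := by exact_mod_cast hs.card_pos
  have h1 : ∑ x ∈ s, (cp (g x) / 4 + (cp (g x)) ^ 2 / 12 + 3 / 16 * (g x - 1 - cp (g x)))
      ≤ ∑ x ∈ s, g x * ft (g x) := Finset.sum_le_sum fun x hx => pointwise (hg x hx)
  have h2 : Real.log ((∑ x ∈ s, Real.exp (ft (g x))) / s.card)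
      ≤ ((∑ x ∈ s, cp (g x)) / 4) / s.card := by
    have h3 := Real.log_le_sub_one_of_pos
      (show 0 < (∑ x ∈ s, Real.exp (ft (g x))) / s.card from
        div_pos (sum_exp_ft_pos s g hs) hc)
    refine h3.trans (le_of_eq ?_)
    rw [sum_exp_ft s g hg]
    field_simp
    ring
  have h4 : (∑ x ∈ s, g x * ft (g x)) - (∑ x ∈ s, cp (g x)) / 4 ≤ kap s g * s.card := by
    unfold kap
    rw [sub_mul, div_mul_cancel₀ _ hc.ne']
    have : Real.log ((∑ x ∈ s, Real.exp (ft (g x))) / s.card) * s.card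
        ≤ (∑ x ∈ s, cp (g x)) / 4 := by
      have := mul_le_mul_of_nonneg_right h2 hc.le
      rwa [div_mul_cancel₀ _ hc.ne'] at this
    linarith
  have h5 : ∑ x ∈ s, ((cp (g x)) ^ 2 / 2 + (g x - 1 - cp (g x)))
      ≤ ∑ x ∈ s, 6 * ((cp (g x)) ^ 2 / 12 + 3 / 16 * (g x - 1 - cp (g x))) := by
    refine Finset.sum_le_sum fun x _ => ?_
    have := cp_le (g x)
    nlinarith
  have h6 : ∑ x ∈ s, (cp (g x) / 4 + (cp (g x)) ^ 2 / 12 + 3 / 16 * (g x - 1 - cp (g x)))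
      = (∑ x ∈ s, cp (g x)) / 4
        + ∑ x ∈ s, ((cp (g x)) ^ 2 / 12 + 3 / 16 * (g x - 1 - cp (g x))) := by
    rw [Finset.sum_div, ← Finset.sum_add_distrib]
    refine Finset.sum_congr rfl fun x _ => ?_
    ring
  rw [← Finset.mul_sum] at h5
  rw [h6] at h1
  linarith

lemma kap_nonneg (s : Finset ℕ) (g : ℕ → ℝ) (hs : s.Nonempty) (hg : ∀ x ∈ s, 0 ≤ g x) :
    0 ≤ kap s g := by
  have hc : (0:ℝ) < s.card := by exact_mod_cast hs.card_pos
  have h1 := kap_ge s g hs hg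
  have h2 : 0 ≤ ∑ x ∈ s, ((cp (g x)) ^ 2 / 2 + (g x - 1 - cp (g x))) := by
    refine Finset.sum_nonneg fun x _ => ?_
    have := cp_le (g x)
    have := sq_nonneg (cp (g x))
    linarith
  have h3 : 0 ≤ 6 * kap s g * s.card := h2.trans h1
  by_contra hneg
  have hneg := not_le.mp hneg
  have : 6 * kap s g * s.card < 0 := by
    have : 6 * kap s g < 0 := by linarith
    exact mul_neg_of_neg_of_pos this hc
  linarith

/-- The bilinear lower bound. -/
lemma bilinear (s : Finset ℕ) (g h : ℕ → ℝ) (e : ℕ → ℕ) (hg : ∀ x ∈ s, 0 ≤ g x)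
    (hh : ∀ x ∈ s, 0 ≤ h x) (hgs : ∑ x ∈ s, g x = (s.card : ℝ)) (hhs : ∑ x ∈ s, h x = (s.card : ℝ))
    (he : ∀ x ∈ s, e x ∈ s) (hinj : ∀ x ∈ s, ∀ y ∈ s, e x = e y → x = y) (x0 : ℕ) (hx0 : x0 ∈ s) :
    (s.card : ℝ) * (1 - 6 * kap s g - 6 * kap s h) - 4 ≤ ∑ x ∈ s.erase x0, g x * h (e x) := by
  have hs : s.Nonempty := ⟨x0, hx0⟩
  have hbij : ∀ F : ℕ → ℝ, ∑ x ∈ s, F (e x) = ∑ x ∈ s, F x := by
    intro F
    have himg : s.image e = s := by
      apply Finset.eq_of_subset_of_card_le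
      · intro y hy
        obtain ⟨x, hx, rfl⟩ := Finset.mem_image.mp hy
        exact he x hx
      · rw [Finset.card_image_of_injOn (fun x hx y hy hxy => hinj x hx y hy hxy)]
    conv_rhs => rw [← himg]
    rw [Finset.sum_image (fun x hx y hy hxy => hinj x hx y hy hxy)]
  have h1 : ∑ x ∈ s.erase x0, (1 + cp (g x)) * (1 + cp (h (e x)))
      ≤ ∑ x ∈ s.erase x0, g x * h (e x) := by
    refine Finset.sum_le_sum fun x hx => ?_
    have hxs := Finset.mem_of_mem_erase hx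
    have a1 := neg_one_le_cp (hg x hxs)
    have a2 := neg_one_le_cp (hh (e x) (he x hxs))
    have a3 := cp_le (g x)
    have a4 := cp_le (h (e x))
    exact mul_le_mul (by linarith) (by linarith) (by linarith) (by linarith)
  have h2 : (1 + cp (g x0)) * (1 + cp (h (e x0)))
      + ∑ x ∈ s.erase x0, (1 + cp (g x)) * (1 + cp (h (e x)))
      = ∑ x ∈ s, (1 + cp (g x)) * (1 + cp (h (e x))) :=
    Finset.add_sum_erase s (fun x => (1 + cp (g x)) * (1 + cp (h (e x)))) hx0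
  have h3 : (1 + cp (g x0)) * (1 + cp (h (e x0))) ≤ 4 := by
    have a1 := neg_one_le_cp (hg x0 hx0)
    have a2 := neg_one_le_cp (hh (e x0) (he x0 hx0))
    have a3 := cp_le_one (g x0)
    have a4 := cp_le_one (h (e x0))
    have : (1 + cp (g x0)) * (1 + cp (h (e x0))) ≤ 2 * 2 :=
      mul_le_mul (by linarith) (by linarith) (by linarith) (by norm_num)
    linarith
  have h4 : ∑ x ∈ s, (1 + cp (g x) + cp (h (e x)) - (cp (g x)) ^ 2 / 2 - (cp (h (e x))) ^ 2 / 2)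
      ≤ ∑ x ∈ s, (1 + cp (g x)) * (1 + cp (h (e x))) := by
    refine Finset.sum_le_sum fun x _ => ?_
    nlinarith [sq_nonneg (cp (g x) + cp (h (e x)))]
  have h5 : ∑ x ∈ s, (1 + cp (g x) + cp (h (e x)) - (cp (g x)) ^ 2 / 2 - (cp (h (e x))) ^ 2 / 2)
      = (s.card : ℝ) + (∑ x ∈ s, (cp (g x) - (cp (g x)) ^ 2 / 2))
        + ∑ x ∈ s, (cp (h x) - (cp (h x)) ^ 2 / 2) := by
    rw [← hbij (fun y => cp (h y) - (cp (h y)) ^ 2 / 2)]
    have hone : (s.card : ℝ) = ∑ x ∈ s, (1:ℝ) := by simp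
    rw [hone, ← Finset.sum_add_distrib, ← Finset.sum_add_distrib]
    refine Finset.sum_congr rfl fun x _ => ?_
    ring
  have key : ∀ f : ℕ → ℝ, ∑ x ∈ s, f x = (s.card : ℝ) → (∀ x ∈ s, 0 ≤ f x) →
      -(6 * kap s f * s.card) ≤ ∑ x ∈ s, (cp (f x) - (cp (f x)) ^ 2 / 2) := by
    intro f hf hf0
    have a1 := kap_ge s f hs hf0
    have a2 : ∑ x ∈ s, (cp (f x) - (cp (f x)) ^ 2 / 2)
        = (∑ x ∈ s, f x - (s.card : ℝ)) - ∑ x ∈ s, ((cp (f x)) ^ 2 / 2 + (f x - 1 - cp (f x))) := by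
      have hone : (s.card : ℝ) = ∑ x ∈ s, (1:ℝ) := by simp
      rw [hone, ← Finset.sum_sub_distrib, ← Finset.sum_sub_distrib]
      refine Finset.sum_congr rfl fun x _ => ?_
      ring
    rw [a2, hf]
    linarith
  have k1 := key g hgs hg
  have k2 := key h hhs hh
  nlinarith

end

end Pool.Agent.SQS
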