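import Mathlib
import Pool.Agent.SQS.Cap

set_option autoImplicit false

/-!
# Entropy budget: a subset of a residue class is nearly uniform modulo most primes
-/

namespace Pool.Agent.SQS

open Finset

noncomputable section

/-- number of elements in `[1, N]` of a residue class -/
lemma card_class_le (N q c : ℕ) (hq : 0 < q) :
    (((Icc 1 N).filter (fun n => n ≡ c [MOD q])).card : ℝ) ≤ (N : ℝ) / q + 1 := by
  have hsub : ((Icc 1 N).filter (fun n => n ≡ c [MOD q])).image (fun n => (n - 1) / q) ⊆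
      range ((N - 1) / q + 1) := by
    intro x hx
    obtain ⟨n, hn, rfl⟩ := Finset.mem_image.mp hx
    rw [Finset.mem_filter, Finset.mem_Icc] at hn
    rw [Finset.mem_range]
    have : (n - 1) / q ≤ (N - 1) / q := Nat.div_le_div_right (by omega)
    omega
  have hinj : Set.InjOn (fun n => (n - 1) / q) ((Icc 1 N).filter (fun n => n ≡ c [MOD q])) := by
    intro a ha b hb hab
    rw [Finset.mem_coe, Finset.mem_filter, Finset.mem_Icc] at ha hb
    have hmod : a ≡ b [MOD q] := ha.2.trans hb.2.symm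
    have hmod' : a - 1 ≡ b - 1 [MOD q] := by
      have h1 : (a - 1) + 1 ≡ (b - 1) + 1 [MOD q] := by
        rw [Nat.sub_add_cancel ha.1.1, Nat.sub_add_cancel hb.1.1]; exact hmod
      exact Nat.ModEq.add_right_cancel' 1 h1
    have h2 : (a - 1) % q = (b - 1) % q := hmod'
    have h3 : (a - 1) / q = (b - 1) / q := hab
    have h4 : a - 1 = b - 1 := by
      rw [← Nat.div_add_mod (a - 1) q, ← Nat.div_add_mod (b - 1) q, h2, h3]
    omega
  have h1 : ((Icc 1 N).filter (fun n => n ≡ c [MOD q])).card ≤ (N - 1) / q + 1 := by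
    have := Finset.card_le_card hsub
    rwa [Finset.card_image_of_injOn hinj, Finset.card_range] at this
  have h2 : (((N - 1) / q : ℕ) : ℝ) ≤ ((N - 1 : ℕ) : ℝ) / q := Nat.cast_div_le
  have h3 : ((N - 1 : ℕ) : ℝ) / q ≤ (N : ℝ) / q := by
    apply div_le_div_of_nonneg_right _ (by positivity)
    exact_mod_cast Nat.sub_le _ _
  have h4 : (((Icc 1 N).filter (fun n => n ≡ c [MOD q])).card : ℝ) ≤ (((N - 1) / q : ℕ) : ℝ) + 1 := by
    exact_mod_cast h1
  linarith

/-- Product sums over residue classes (tensorization by the Chinese remainder theorem). -/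
lemma class_sum_le (N : ℕ) (φ : ℕ → ℕ → ℝ) (hφ : ∀ p x, 0 ≤ φ p x) (T : Finset ℕ) :
    ∀ (q c : ℕ), 0 < q → (∀ p ∈ T, p.Prime) → (∀ p ∈ T, ¬ p ∣ q) →
      ∑ n ∈ (Icc 1 N).filter (fun n => n ≡ c [MOD q]), ∏ p ∈ T, φ p (n % p)
        ≤ ((N : ℝ) / (q * ∏ p ∈ T, (p : ℝ)) + 1) * ∏ p ∈ T, ∑ x ∈ range p, φ p x := by
  induction T using Finset.induction_on with
  | empty =>
    intro q c hq _ _
    simp only [Finset.prod_empty, Finset.sum_const, nsmul_eq_mul, mul_one]
    exact card_class_le N q c hq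
  | insert p0 T hp0 ih =>
    intro q c hq hT hTq
    have hpp : p0.Prime := hT p0 (Finset.mem_insert_self _ _)
    have hT' : ∀ p ∈ T, p.Prime := fun p hp => hT p (Finset.mem_insert_of_mem hp)
    have hTq' : ∀ p ∈ T, ¬ p ∣ q := fun p hp => hTq p (Finset.mem_insert_of_mem hp)
    have hcop : Nat.Coprime q p0 :=
      ((Nat.Prime.coprime_iff_not_dvd hpp).mpr (hTq p0 (Finset.mem_insert_self _ _))).symm
    have hne : ∀ p ∈ T, ¬ p ∣ q * p0 := by
      intro p hp hd
      rcases (Nat.Prime.dvd_mul (hT' p hp)).mp hd with h | h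
      · exact hTq' p hp h
      · have := (Nat.prime_dvd_prime_iff_eq (hT' p hp) hpp).mp h
        rw [this] at hp
        exact hp0 hp
    rw [Finset.prod_insert hp0, Finset.prod_insert hp0]
    have hmaps : ∀ n ∈ (Icc 1 N).filter (fun n => n ≡ c [MOD q]), n % p0 ∈ range p0 := by
      intro n _
      exact Finset.mem_range.mpr (Nat.mod_lt _ hpp.pos)
    rw [← Finset.sum_fiberwise_of_maps_to hmaps]
    have hstep : ∀ x ∈ range p0,
        ∑ n ∈ ((Icc 1 N).filter (fun n => n ≡ c [MOD q])).filter (fun n => n % p0 = x),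
          ∏ p ∈ insert p0 T, φ p (n % p)
        ≤ φ p0 x * (((N : ℝ) / (q * ((p0 : ℝ) * ∏ p ∈ T, (p : ℝ))) + 1)
            * ∏ p ∈ T, ∑ y ∈ range p, φ p y) := by
      intro x hx
      have hx' := Finset.mem_range.mp hx
      obtain ⟨c2, hc2⟩ := Nat.chineseRemainder hcop c x
      have hsub : ((Icc 1 N).filter (fun n => n ≡ c [MOD q])).filter (fun n => n % p0 = x) ⊆
          (Icc 1 N).filter (fun n => n ≡ c2 [MOD (q * p0)]) := by
        intro n hn
        rw [Finset.mem_filter, Finset.mem_filter] at hn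
        rw [Finset.mem_filter]
        refine ⟨hn.1.1, ?_⟩
        rw [← Nat.modEq_and_modEq_iff_modEq_mul hcop]
        refine ⟨hn.1.2.trans hc2.1.symm, ?_⟩
        have h1 : n ≡ x [MOD p0] := by
          unfold Nat.ModEq
          rw [hn.2, Nat.mod_eq_of_lt hx']
        exact h1.trans hc2.2.symm
      have h1 : ∑ n ∈ ((Icc 1 N).filter (fun n => n ≡ c [MOD q])).filter (fun n => n % p0 = x),
          ∏ p ∈ insert p0 T, φ p (n % p)
          = φ p0 x * ∑ n ∈ ((Icc 1 N).filter (fun n => n ≡ c [MOD q])).filter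
              (fun n => n % p0 = x), ∏ p ∈ T, φ p (n % p) := by
        rw [Finset.mul_sum]
        refine Finset.sum_congr rfl fun n hn => ?_
        rw [Finset.prod_insert hp0, (Finset.mem_filter.mp hn).2]
      rw [h1]
      refine mul_le_mul_of_nonneg_left ?_ (hφ _ _)
      have h2 := ih (q * p0) c2 (Nat.mul_pos hq hpp.pos) hT' hne
      refine le_trans ?_ (h2.trans (le_of_eq ?_))
      · refine Finset.sum_le_sum_of_subset_of_nonneg hsub fun n _ _ => ?_
        exact Finset.prod_nonneg fun p _ => hφ _ _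
      · push_cast
        rw [mul_assoc]
    refine (Finset.sum_le_sum hstep).trans (le_of_eq ?_)
    rw [← Finset.sum_mul]
    ring

/-- normalized residue counts -/
def gB (B : Finset ℕ) (p : ℕ) (x : ℕ) : ℝ :=
  (p : ℝ) * ((B.filter (fun n => n % p = x)).card : ℝ) / B.card

lemma gB_nonneg (B : Finset ℕ) (p x : ℕ) : 0 ≤ gB B p x := by
  unfold gB; positivity

lemma sum_gB (B : Finset ℕ) (p : ℕ) (hp : 0 < p) (hB : B.Nonempty) :
    ∑ x ∈ range p, gB B p x = ((range p).card : ℝ) := by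
  have hc : (0:ℝ) < B.card := by exact_mod_cast hB.card_pos
  have h1 : ∑ x ∈ range p, ((B.filter (fun n => n % p = x)).card : ℝ) = B.card := by
    have := Finset.card_eq_sum_card_fiberwise (s := B) (t := range p) (f := fun n => n % p)
      (fun n _ => Finset.mem_coe.mpr (Finset.mem_range.mpr (Nat.mod_lt _ hp)))
    exact_mod_cast this.symm
  unfold gB
  rw [Finset.card_range, ← Finset.sum_div, ← Finset.mul_sum, h1]
  field_simp

/-- the entropy budget of `B` modulo `p` -/
def kapB (B : Finset ℕ) (p : ℕ) : ℝ := kap (range p) (gB B p)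

lemma kapB_nonneg (B : Finset ℕ) (p : ℕ) (hp : 0 < p) : 0 ≤ kapB B p :=
  kap_nonneg _ _ ⟨0, Finset.mem_range.mpr hp⟩ (fun x _ => gB_nonneg B p x)

lemma avg_eq (B : Finset ℕ) (p : ℕ) (hp : 0 < p) (f : ℕ → ℝ) :
    (∑ x ∈ range p, gB B p x * f x) / p = (∑ n ∈ B, f (n % p)) / B.card := by
  have hp' : (0:ℝ) < p := by exact_mod_cast hp
  have hmaps : ∀ n ∈ B, n % p ∈ range p := fun n _ => Finset.mem_range.mpr (Nat.mod_lt _ hp)
  rw [← Finset.sum_fiberwise_of_maps_to hmaps (fun n => f (n % p)), Finset.sum_div,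
    Finset.sum_div]
  refine Finset.sum_congr rfl fun x _ => ?_
  have h1 : ∑ n ∈ B.filter (fun n => n % p = x), f (n % p)
      = ((B.filter (fun n => n % p = x)).card : ℝ) * f x := by
    rw [Finset.sum_congr rfl (fun n hn => by rw [(Finset.mem_filter.mp hn).2]),
      Finset.sum_const, nsmul_eq_mul]
  rw [h1]
  unfold gB
  field_simp

/-- **Entropy budget.** -/
theorem budget (N q c : ℕ) (hq : 0 < q) (B T : Finset ℕ) (hB : B.Nonempty)
    (hBs : B ⊆ (Icc 1 N).filter (fun n => n ≡ c [MOD q])) (hT : ∀ p ∈ T, p.Prime)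
    (hTq : ∀ p ∈ T, ¬ p ∣ q) (hN : q * ∏ p ∈ T, p ≤ N) :
    ∑ p ∈ T, kapB B p ≤ Real.log (2 * N / (q * B.card)) := by
  have hc : (0:ℝ) < B.card := by exact_mod_cast hB.card_pos
  have hq' : (0:ℝ) < q := by exact_mod_cast hq
  have hNpos : (0:ℝ) < N := by
    have : 0 < q * ∏ p ∈ T, p := Nat.mul_pos hq (Finset.prod_pos fun p hp => (hT p hp).pos)
    exact_mod_cast lt_of_lt_of_le this hN
  have hRpos : (0:ℝ) < ∏ p ∈ T, (p : ℝ) :=
    Finset.prod_pos fun p hp => by exact_mod_cast (hT p hp).pos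
  set F : ℕ → ℝ := fun n => ∑ p ∈ T, ft (gB B p (n % p)) with hF
  -- averages
  have e1 : ∑ p ∈ T, kapB B p = (∑ n ∈ B, F n) / B.card
      - ∑ p ∈ T, Real.log ((∑ x ∈ range p, Real.exp (ft (gB B p x))) / p) := by
    have h1 : (∑ n ∈ B, F n) / B.card
        = ∑ p ∈ T, (∑ n ∈ B, ft (gB B p (n % p))) / B.card := by
      rw [hF, Finset.sum_comm, Finset.sum_div]
    rw [h1, ← Finset.sum_sub_distrib]
    refine Finset.sum_congr rfl fun p hp => ?_
    unfold kapB kap
    rw [Finset.card_range, avg_eq B p (hT p hp).pos (fun x => ft (gB B p x))]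
  -- Jensen
  have e2 : Real.exp ((∑ n ∈ B, F n) / B.card) ≤ (∑ n ∈ B, Real.exp (F n)) / B.card := by
    have h1 := convexOn_exp.map_sum_le (t := B) (w := fun _ => (1:ℝ) / B.card) (p := F)
      (fun _ _ => by positivity)
      (by rw [Finset.sum_const, nsmul_eq_mul]; field_simp) (fun _ _ => Set.mem_univ _)
    simp only [smul_eq_mul] at h1
    rw [← Finset.mul_sum, ← Finset.mul_sum] at h1
    calc Real.exp ((∑ n ∈ B, F n) / B.card) = Real.exp (1 / (B.card : ℝ) * ∑ n ∈ B, F n) := by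
          congr 1; ring
      _ ≤ 1 / (B.card : ℝ) * ∑ n ∈ B, Real.exp (F n) := h1
      _ = (∑ n ∈ B, Real.exp (F n)) / B.card := by ring
  have e3 : ∑ n ∈ B, Real.exp (F n)
      ≤ (2 * N / q) * ∏ p ∈ T, ((∑ x ∈ range p, Real.exp (ft (gB B p x))) / p) := by
    have h1 : ∑ n ∈ B, Real.exp (F n)
        ≤ ∑ n ∈ (Icc 1 N).filter (fun n => n ≡ c [MOD q]),
          ∏ p ∈ T, Real.exp (ft (gB B p (n % p))) := by
      have h2 : ∀ n, Real.exp (F n) = ∏ p ∈ T, Real.exp (ft (gB B p (n % p))) := fun n => by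
        rw [hF, Real.exp_sum]
      rw [Finset.sum_congr rfl fun n _ => h2 n]
      exact Finset.sum_le_sum_of_subset_of_nonneg hBs fun n _ _ =>
        Finset.prod_nonneg fun p _ => (Real.exp_pos _).le
    have h3 := class_sum_le N (fun p x => Real.exp (ft (gB B p x)))
      (fun p x => (Real.exp_pos _).le) T q c hq hT hTq
    refine h1.trans (h3.trans ?_)
    rw [Finset.prod_div_distrib]
    have h4 : (N : ℝ) / (q * ∏ p ∈ T, (p : ℝ)) + 1 ≤ 2 * N / (q * ∏ p ∈ T, (p : ℝ)) := by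
      have h5 : (q : ℝ) * ∏ p ∈ T, (p : ℝ) ≤ N := by
        have h5' : ((q * ∏ p ∈ T, p : ℕ) : ℝ) ≤ (N : ℝ) := Nat.cast_le.mpr hN
        rw [Nat.cast_mul, Nat.cast_prod] at h5'
        exact h5'
      have h6 : (1:ℝ) ≤ N / (q * ∏ p ∈ T, (p : ℝ)) := by
        rw [le_div_iff₀ (mul_pos hq' hRpos), one_mul]; exact h5
      have h7 : 2 * (N:ℝ) / (q * ∏ p ∈ T, (p : ℝ))
          = N / (q * ∏ p ∈ T, (p : ℝ)) + N / (q * ∏ p ∈ T, (p : ℝ)) := by ring
      rw [h7]; linarith
    have h8 : 0 ≤ ∏ p ∈ T, ∑ x ∈ range p, Real.exp (ft (gB B p x)) :=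
      Finset.prod_nonneg fun p _ => Finset.sum_nonneg fun x _ => (Real.exp_pos _).le
    refine (mul_le_mul_of_nonneg_right h4 h8).trans (le_of_eq ?_)
    generalize (∏ p ∈ T, ∑ x ∈ range p, Real.exp (ft (gB B p x))) = X
    generalize (∏ p ∈ T, (p : ℝ)) = R at hRpos
    have hR0 := hRpos.ne'
    have hq0 := hq'.ne'
    field_simp
  have e4 : Real.exp ((∑ n ∈ B, F n) / B.card)
      ≤ (2 * N / (q * B.card)) * ∏ p ∈ T, ((∑ x ∈ range p, Real.exp (ft (gB B p x))) / p) := by
    refine e2.trans ?_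
    rw [div_le_iff₀ hc]
    refine e3.trans (le_of_eq ?_)
    generalize (∏ p ∈ T, ((∑ x ∈ range p, Real.exp (ft (gB B p x))) / p)) = X
    have hc0 := hc.ne'
    have hq0 := hq'.ne'
    field_simp
  have hposT : ∀ p ∈ T, 0 < (∑ x ∈ range p, Real.exp (ft (gB B p x))) / p := by
    intro p hp
    have hpp := (hT p hp).pos
    exact div_pos (sum_exp_ft_pos _ _ ⟨0, Finset.mem_range.mpr hpp⟩) (by exact_mod_cast hpp)
  have e5 : (∑ n ∈ B, F n) / B.card ≤ Real.log (2 * N / (q * B.card))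
      + ∑ p ∈ T, Real.log ((∑ x ∈ range p, Real.exp (ft (gB B p x))) / p) := by
    have h1 : 0 < 2 * (N:ℝ) / (q * B.card) := by positivity
    have h2 : 0 < ∏ p ∈ T, ((∑ x ∈ range p, Real.exp (ft (gB B p x))) / p) :=
      Finset.prod_pos hposT
    have h3 := Real.log_le_log (Real.exp_pos _) e4
    rw [Real.log_exp, Real.log_mul h1.ne' h2.ne', Real.log_prod (fun p hp => (hposT p hp).ne')] at h3
    exact h3
  rw [e1]
  linarith

/-- Chunking: a budget for all small subsets bounds the total sum. -/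
lemma chunk (κ : ℕ → ℝ) (k : ℕ) (hk : 0 < k) (b : ℝ) (hb : 0 ≤ b) (n : ℕ) :
    ∀ P : Finset ℕ, P.card = n → (∀ T ⊆ P, T.card ≤ k → ∑ p ∈ T, κ p ≤ b) →
      ∑ p ∈ P, κ p ≤ ((n : ℝ) / k + 1) * b := by
  have hk' : (0:ℝ) < k := by exact_mod_cast hk
  induction n using Nat.strong_induction_on with
  | _ n ih =>
    intro P hP h
    by_cases hn : n ≤ k
    · have h1 := h P (Finset.Subset.refl _) (by omega)
      refine h1.trans ?_
      have h2 : 0 ≤ (n : ℝ) / k * b := by positivity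
      nlinarith
    · have hn := not_le.mp hn
      obtain ⟨T, hTP, hTk⟩ := Finset.exists_subset_card_eq (show k ≤ P.card by omega)
      have h1 := h T hTP (by omega)
      have h2 : (P \ T).card = n - k := by
        rw [Finset.card_sdiff_of_subset hTP]; omega
      have h3 := ih (n - k) (by omega) (P \ T) h2
        (fun U hU hUk => h U (hU.trans Finset.sdiff_subset) hUk)
      have h4 : ∑ p ∈ P, κ p = ∑ p ∈ P \ T, κ p + ∑ p ∈ T, κ p :=
        (Finset.sum_sdiff hTP).symm
      rw [h4]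
      have h5 : ((n - k : ℕ) : ℝ) = n - k := by
        rw [Nat.cast_sub (by omega)]
      rw [h5] at h3
      have h6 : ((n : ℝ) - k) / k = n / k - 1 := by
        field_simp
      rw [h6] at h3
      nlinarith

end

end Pool.Agent.SQS
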