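import Mathlib
import Pool.Agent.SQS.Ent

set_option autoImplicit false

/-!
# Pairs of classes: the number of pairs with `p ∣ n ^ 2 + m ^ 2`
-/

namespace Pool.Agent.SQS

open Finset

noncomputable section

/-- pairs with a prescribed root -/
def Er (B1 B2 : Finset ℕ) (p r : ℕ) : Finset (ℕ × ℕ) :=
  (B1 ×ˢ B2).filter (fun nm => ¬ p ∣ nm.1 ∧ nm.2 % p = (r * nm.1) % p)

/-- pairs with `p ∣ n ^ 2 + m ^ 2` and `n` not divisible by `p` -/
def Wp (B1 B2 : Finset ℕ) (p : ℕ) : Finset (ℕ × ℕ) :=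
  (B1 ×ˢ B2).filter (fun nm => p ∣ nm.1 ^ 2 + nm.2 ^ 2 ∧ ¬ p ∣ nm.1)

lemma card_Er (B1 B2 : Finset ℕ) (p r : ℕ) (hp : p.Prime) :
    (Er B1 B2 p r).card = ∑ x ∈ (range p).erase 0,
      (B1.filter (fun n => n % p = x)).card * (B2.filter (fun m => m % p = (r * x) % p)).card := by
  have hmaps : ∀ nm ∈ Er B1 B2 p r, nm.1 % p ∈ (range p).erase 0 := by
    intro nm hnm
    unfold Er at hnm
    rw [Finset.mem_filter] at hnm
    rw [Finset.mem_erase, Finset.mem_range]
    exact ⟨fun h => hnm.2.1 (Nat.dvd_of_mod_eq_zero h), Nat.mod_lt _ hp.pos⟩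
  rw [Finset.card_eq_sum_card_fiberwise hmaps]
  refine Finset.sum_congr rfl fun x hx => ?_
  rw [← Finset.card_product]
  congr 1
  ext nm
  unfold Er
  rw [Finset.mem_erase, Finset.mem_range] at hx
  simp only [Finset.mem_filter, Finset.mem_product]
  constructor
  · rintro ⟨⟨⟨h1, h2⟩, h3, h4⟩, h5⟩
    refine ⟨⟨h1, h5⟩, h2, ?_⟩
    rw [h4, ← h5, Nat.mul_mod, Nat.mul_mod r (nm.1 % p), Nat.mod_mod]
  · rintro ⟨⟨h1, h5⟩, h2, h4⟩
    refine ⟨⟨⟨h1, h2⟩, ?_, ?_⟩, h5⟩
    · intro hd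
      have := Nat.mod_eq_zero_of_dvd hd
      omega
    · rw [h4, ← h5, Nat.mul_mod, Nat.mul_mod r nm.1, Nat.mod_mod]

lemma Er_lower (B1 B2 : Finset ℕ) (p r : ℕ) (hp : p.Prime) (hr : p ∣ r ^ 2 + 1)
    (h1 : B1.Nonempty) (h2 : B2.Nonempty) :
    (B1.card : ℝ) * B2.card * (1 - 6 * kapB B1 p - 6 * kapB B2 p - 4 / p)
      ≤ (p : ℝ) * (Er B1 B2 p r).card := by
  have hp' : (0:ℝ) < p := by exact_mod_cast hp.pos
  have c1 : (0:ℝ) < B1.card := by exact_mod_cast h1.card_pos
  have c2 : (0:ℝ) < B2.card := by exact_mod_cast h2.card_pos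
  have hcop : Nat.Coprime p r := by
    rw [Nat.Prime.coprime_iff_not_dvd hp]
    intro hd
    have h3 : p ∣ r ^ 2 := Dvd.dvd.trans hd (Dvd.intro_left (r.pow 1) (by simp [pow_succ]))
    have h4 : p ∣ 1 := (Nat.dvd_add_right h3).mp hr
    exact hp.one_lt.ne' (Nat.dvd_one.mp h4)
  have hb := bilinear (range p) (gB B1 p) (gB B2 p) (fun x => (r * x) % p)
    (fun x _ => gB_nonneg _ _ _) (fun x _ => gB_nonneg _ _ _) (sum_gB B1 p hp.pos h1)
    (sum_gB B2 p hp.pos h2) (fun x _ => Finset.mem_range.mpr (Nat.mod_lt _ hp.pos))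
    (by
      intro x hx y hy hxy
      have hx' := Finset.mem_range.mp hx
      have hy' := Finset.mem_range.mp hy
      have h3 : r * x ≡ r * y [MOD p] := hxy
      have h4 : x ≡ y [MOD p] := Nat.ModEq.cancel_left_of_coprime hcop h3
      exact Nat.ModEq.eq_of_lt_of_lt h4 hx' hy')
    0 (Finset.mem_range.mpr hp.pos)
  rw [Finset.card_range] at hb
  have hsum : ∑ x ∈ (range p).erase 0, gB B1 p x * gB B2 p ((r * x) % p)
      = (p : ℝ) ^ 2 / (B1.card * B2.card) * ((Er B1 B2 p r).card : ℝ) := by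
    rw [card_Er B1 B2 p r hp]
    push_cast
    rw [Finset.mul_sum]
    refine Finset.sum_congr rfl fun x _ => ?_
    unfold gB
    field_simp
  rw [hsum] at hb
  have hk1 : kap (range p) (gB B1 p) = kapB B1 p := rfl
  have hk2 : kap (range p) (gB B2 p) = kapB B2 p := rfl
  rw [hk1, hk2] at hb
  have h3 := mul_le_mul_of_nonneg_left hb (show 0 ≤ (B1.card : ℝ) * B2.card / p by positivity)
  have e1 : (B1.card : ℝ) * B2.card / p * ((p : ℝ) * (1 - 6 * kapB B1 p - 6 * kapB B2 p) - 4)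
      = (B1.card : ℝ) * B2.card * (1 - 6 * kapB B1 p - 6 * kapB B2 p - 4 / p) := by
    generalize kapB B1 p = a
    generalize kapB B2 p = b
    field_simp
  have e2 : (B1.card : ℝ) * B2.card / p * ((p : ℝ) ^ 2 / (B1.card * B2.card)
      * ((Er B1 B2 p r).card : ℝ)) = (p : ℝ) * (Er B1 B2 p r).card := by
    field_simp
  rw [e1, e2] at h3
  exact h3

/-- **Pair lemma.** -/
theorem pair_lower (B1 B2 : Finset ℕ) (p : ℕ) (hp : p.Prime) (hp4 : p % 4 = 1)
    (h1 : B1.Nonempty) (h2 : B2.Nonempty) :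
    2 * ((B1.card : ℝ) * B2.card * (1 - 6 * kapB B1 p - 6 * kapB B2 p - 4 / p))
      ≤ (p : ℝ) * (Wp B1 B2 p).card := by
  have hp' : (0:ℝ) < p := by exact_mod_cast hp.pos
  have hp2 : 2 < p := by
    rcases Nat.lt_or_ge 2 p with h | h
    · exact h
    · have := hp.two_le
      have : p = 2 := by omega
      omega
  have hfact : Fact p.Prime := ⟨hp⟩
  -- a root of `-1`
  obtain ⟨y, hy⟩ : IsSquare (-1 : ZMod p) := by
    rw [ZMod.exists_sq_eq_neg_one_iff]
    omega
  set r : ℕ := y.val with hrdef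
  have hry : ((r : ℕ) : ZMod p) = y := by
    rw [hrdef]; exact ZMod.natCast_zmod_val y
  have hr : p ∣ r ^ 2 + 1 := by
    rw [← ZMod.natCast_eq_zero_iff]
    push_cast
    rw [hry, sq, ← hy]
    ring
  have hrlt : r < p := ZMod.val_lt y
  have hr0 : 0 < r := by
    rcases Nat.eq_zero_or_pos r with h | h
    · rw [h] at hr
      have : p ∣ 1 := by simpa using hr
      exact absurd (Nat.dvd_one.mp this) hp.one_lt.ne'
    · exact h
  set r' : ℕ := p - r with hr'def
  have hr'r : r' + r = p := by omega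
  have hr' : p ∣ r' ^ 2 + 1 := by
    have h3 : r' ^ 2 + 1 + 2 * r * p = (r ^ 2 + 1) + p * p + 0 := by
      have : r' = p - r := rfl
      zify
      have hz : (r' : ℤ) = p - r := by
        have : (r' : ℤ) + r = p := by exact_mod_cast hr'r
        linarith
      rw [hz]; ring
    have h4 : p ∣ (r ^ 2 + 1) + p * p + 0 :=
      (Nat.dvd_add hr (Dvd.intro_left p rfl)).trans (by simp)
    rw [← h3] at h4
    exact (Nat.dvd_add_left (Dvd.intro_left (2 * r) rfl)).mp h4
  have a1 := Er_lower B1 B2 p r hp hr h1 h2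
  have a2 := Er_lower B1 B2 p r' hp hr' h1 h2
  have hmem : ∀ s : ℕ, p ∣ s ^ 2 + 1 → Er B1 B2 p s ⊆ Wp B1 B2 p := by
    intro s hs nm hnm
    unfold Er at hnm
    unfold Wp
    rw [Finset.mem_filter] at hnm ⊢
    refine ⟨hnm.1, ?_, hnm.2.1⟩
    have h3 : nm.2 ≡ s * nm.1 [MOD p] := hnm.2.2
    have h4 : nm.1 ^ 2 + nm.2 ^ 2 ≡ nm.1 ^ 2 + (s * nm.1) ^ 2 [MOD p] :=
      Nat.ModEq.add_left _ (h3.pow 2)
    have h5 : nm.1 ^ 2 + (s * nm.1) ^ 2 = nm.1 ^ 2 * (s ^ 2 + 1) := by ring
    rw [h5] at h4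
    exact (Nat.ModEq.dvd_iff h4 dvd_rfl).mpr (Dvd.dvd.mul_left hs _)
  have hdisj : Disjoint (Er B1 B2 p r) (Er B1 B2 p r') := by
    rw [Finset.disjoint_left]
    intro nm hn1 hn2
    unfold Er at hn1 hn2
    rw [Finset.mem_filter] at hn1 hn2
    have h3 : nm.2 ≡ r * nm.1 [MOD p] := hn1.2.2
    have h4 : nm.2 ≡ r' * nm.1 [MOD p] := hn2.2.2
    have h5 : r * nm.1 ≡ r' * nm.1 [MOD p] := h3.symm.trans h4
    have hcop : Nat.Coprime p nm.1 := (Nat.Prime.coprime_iff_not_dvd hp).mpr hn1.2.1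
    have h6 : r ≡ r' [MOD p] := Nat.ModEq.cancel_right_of_coprime hcop h5
    have h7 : r = r' := Nat.ModEq.eq_of_lt_of_lt h6 hrlt (by omega)
    omega
  have hcard : (Er B1 B2 p r).card + (Er B1 B2 p r').card ≤ (Wp B1 B2 p).card := by
    rw [← Finset.card_union_of_disjoint hdisj]
    exact Finset.card_le_card (Finset.union_subset (hmem r hr) (hmem r' hr'))
  have hcard' : ((Er B1 B2 p r).card : ℝ) + (Er B1 B2 p r').card ≤ (Wp B1 B2 p).card := by
    exact_mod_cast hcard
  have := mul_le_mul_of_nonneg_left hcard' hp'.le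
  linarith

/-- The number of classes `c` modulo `q = ∏ S` with `p ∣ c ^ 2 + b ^ 2` for all `p ∈ S`,
within a given class modulo `q0`. -/
lemma card_roots_aux (b : ℕ) (S : Finset ℕ) :
    ∀ q0 c0 : ℕ, 0 < q0 → (∀ p ∈ S, p.Prime) → (∀ p ∈ S, ¬ p ∣ q0) →
      (((range (q0 * ∏ p ∈ S, p)).filter
        (fun c => c ≡ c0 [MOD q0] ∧ ∀ p ∈ S, p ∣ c ^ 2 + b ^ 2 ∧ ¬ p ∣ c)).card) ≤ 2 ^ S.card := by
  induction S using Finset.induction_on with
  | empty =>
    intro q0 c0 hq0 _ _
    rw [Finset.prod_empty, mul_one, Finset.card_empty, pow_zero, Finset.card_le_one]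
    intro a ha b' hb'
    rw [Finset.mem_filter, Finset.mem_range] at ha hb'
    exact Nat.ModEq.eq_of_lt_of_lt (ha.2.1.trans hb'.2.1.symm) ha.1 hb'.1
  | insert p0 S hp0 ih =>
    intro q0 c0 hq0 hS hSq
    have hpp : p0.Prime := hS p0 (Finset.mem_insert_self _ _)
    have hS' : ∀ p ∈ S, p.Prime := fun p hp => hS p (Finset.mem_insert_of_mem hp)
    have hcop : Nat.Coprime q0 p0 :=
      ((Nat.Prime.coprime_iff_not_dvd hpp).mpr (hSq p0 (Finset.mem_insert_self _ _))).symm
    have hne : ∀ p ∈ S, ¬ p ∣ q0 * p0 := by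
      intro p hp hd
      rcases (Nat.Prime.dvd_mul (hS' p hp)).mp hd with h | h
      · exact hSq p (Finset.mem_insert_of_mem hp) h
      · have := (Nat.prime_dvd_prime_iff_eq (hS' p hp) hpp).mp h
        rw [this] at hp
        exact hp0 hp
    rw [Finset.prod_insert hp0, Finset.card_insert_of_notMem hp0, pow_succ]
    set U := (range (q0 * (p0 * ∏ p ∈ S, p))).filter
        (fun c => c ≡ c0 [MOD q0] ∧ ∀ p ∈ insert p0 S, p ∣ c ^ 2 + b ^ 2 ∧ ¬ p ∣ c) with hU
    -- the residues modulo `p0`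
    have hres : (U.image (fun c => c % p0)).card ≤ 2 := by
      by_cases hne' : U.Nonempty
      · obtain ⟨a, ha⟩ := hne'
        have haU := (Finset.mem_filter.mp ha).2.2 p0 (Finset.mem_insert_self _ _)
        have hsub : U.image (fun c => c % p0) ⊆ {a % p0, (p0 - a % p0)} := by
          intro x hx
          obtain ⟨c, hc, rfl⟩ := Finset.mem_image.mp hx
          have hcU := (Finset.mem_filter.mp hc).2.2 p0 (Finset.mem_insert_self _ _)
          have hdiff : (p0 : ℤ) ∣ ((c : ℤ) - a) * (c + a) := by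
            have h1 : (p0 : ℤ) ∣ (c : ℤ) ^ 2 + b ^ 2 := by exact_mod_cast hcU.1
            have h2 : (p0 : ℤ) ∣ (a : ℤ) ^ 2 + b ^ 2 := by exact_mod_cast haU.1
            have h3 := dvd_sub h1 h2
            have h4 : ((c : ℤ) ^ 2 + b ^ 2) - (a ^ 2 + b ^ 2) = ((c : ℤ) - a) * (c + a) := by ring
            rwa [h4] at h3
          have hpz : Prime (p0 : ℤ) := Nat.prime_iff_prime_int.mp hpp
          rw [Finset.mem_insert, Finset.mem_singleton]
          rcases hpz.dvd_or_dvd hdiff with h | h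
          · left
            have : (a : ℤ) ≡ c [ZMOD p0] := (Int.modEq_iff_dvd).mpr h
            have h5 : a ≡ c [MOD p0] := (Int.natCast_modEq_iff).mp this
            exact h5.symm
          · right
            have h5 : p0 ∣ c + a := by exact_mod_cast h
            have h6 : (c % p0 + a % p0) % p0 = 0 := by
              rw [← Nat.add_mod]; exact Nat.mod_eq_zero_of_dvd h5
            have h7 : c % p0 < p0 := Nat.mod_lt _ hpp.pos
            have h8 : a % p0 < p0 := Nat.mod_lt _ hpp.pos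
            have h9 : c % p0 ≠ 0 := fun h0 => hcU.2 (Nat.dvd_of_mod_eq_zero h0)
            have h10 : p0 ∣ c % p0 + a % p0 := Nat.dvd_of_mod_eq_zero h6
            obtain ⟨t, ht⟩ := h10
            have h11 : t = 1 := by
              have h12 : p0 * t < p0 * 2 := by omega
              have h13 : t < 2 := lt_of_mul_lt_mul_left h12 (Nat.zero_le _)
              have h14 : t ≠ 0 := by
                rintro rfl
                simp at ht
                omega
              omega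
            rw [h11] at ht
            omega
        exact (Finset.card_le_card hsub).trans Finset.card_le_two
      · rw [Finset.not_nonempty_iff_eq_empty.mp hne']
        simp
    have hfib : ∀ x ∈ U.image (fun c => c % p0), (U.filter (fun c => c % p0 = x)).card
        ≤ 2 ^ S.card := by
      intro x hx
      obtain ⟨a, ha, rfl⟩ := Finset.mem_image.mp hx
      obtain ⟨c2, hc2⟩ := Nat.chineseRemainder hcop c0 (a % p0)
      refine le_trans (Finset.card_le_card ?_) (ih (q0 * p0) c2 (Nat.mul_pos hq0 hpp.pos) hS' hne)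
      intro c hc
      rw [Finset.mem_filter] at hc
      have hcU := Finset.mem_filter.mp hc.1
      rw [Finset.mem_filter]
      refine ⟨?_, ?_, fun p hp => hcU.2.2 p (Finset.mem_insert_of_mem hp)⟩
      · rw [mul_assoc]; exact hcU.1
      · rw [← Nat.modEq_and_modEq_iff_modEq_mul hcop]
        refine ⟨hcU.2.1.trans hc2.1.symm, ?_⟩
        have h1 : c ≡ a % p0 [MOD p0] := by
          unfold Nat.ModEq
          rw [hc.2, Nat.mod_mod]
        exact h1.trans hc2.2.symm
    have h1 := Finset.card_le_mul_card_image U (2 ^ S.card) hfib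
    calc U.card ≤ 2 ^ S.card * (U.image (fun c => c % p0)).card := h1
      _ ≤ 2 ^ S.card * 2 := Nat.mul_le_mul_left _ hres

lemma card_roots (b : ℕ) (S : Finset ℕ) (hS : ∀ p ∈ S, p.Prime) :
    (((range (∏ p ∈ S, p)).filter
      (fun c => ∀ p ∈ S, p ∣ c ^ 2 + b ^ 2 ∧ ¬ p ∣ c)).card) ≤ 2 ^ S.card := by
  have h := card_roots_aux b S 1 0 one_pos hS (fun p hp hd =>
    (hS p hp).one_lt.ne' (Nat.dvd_one.mp hd))
  rw [one_mul] at h
  refine le_trans (le_of_eq ?_) h
  congr 1
  ext c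
  simp only [Finset.mem_filter, Nat.modEq_one, true_and]

end

end Pool.Agent.SQS
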