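import Mathlib
import Pool.Agent.SQS.Pair

set_option autoImplicit false

/-!
# The greedy step
-/

namespace Pool.Agent.SQS

open Finset

noncomputable section

/-- pairs in `A × A` with `p ∣ n ^ 2 + m ^ 2` and `p ∤ n` for all `p ∈ S` -/
def WS (A S : Finset ℕ) : Finset (ℕ × ℕ) :=
  (A ×ˢ A).filter (fun nm => ∀ p ∈ S, p ∣ nm.1 ^ 2 + nm.2 ^ 2 ∧ ¬ p ∣ nm.1)

/-- a residue class of `A` -/
def Ac (A : Finset ℕ) (q c : ℕ) : Finset ℕ := A.filter (fun n => n % q = c)

/-- admissible pairs of classes -/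
def Gam (S : Finset ℕ) : Finset (ℕ × ℕ) :=
  (range (∏ p ∈ S, p) ×ˢ range (∏ p ∈ S, p)).filter
    (fun cc => ∀ p ∈ S, p ∣ cc.1 ^ 2 + cc.2 ^ 2 ∧ ¬ p ∣ cc.1)

lemma mod_dvd_iff {p q n : ℕ} (hpq : p ∣ q) : p ∣ n % q ↔ p ∣ n := by
  rw [Nat.dvd_mod_iff hpq]

lemma cond_iff {p q n m : ℕ} (hpq : p ∣ q) :
    (p ∣ (n % q) ^ 2 + (m % q) ^ 2 ∧ ¬ p ∣ n % q) ↔ (p ∣ n ^ 2 + m ^ 2 ∧ ¬ p ∣ n) := by
  rw [mod_dvd_iff hpq]
  have h1 : (n % q) ^ 2 + (m % q) ^ 2 ≡ n ^ 2 + m ^ 2 [MOD p] := by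
    have a1 : n % q ≡ n [MOD p] := (Nat.mod_modEq n q).of_dvd hpq
    have a2 : m % q ≡ m [MOD p] := (Nat.mod_modEq m q).of_dvd hpq
    exact Nat.ModEq.add (a1.pow 2) (a2.pow 2)
  rw [Nat.ModEq.dvd_iff h1 dvd_rfl]

lemma prod_pos' {S : Finset ℕ} (hS : ∀ p ∈ S, p.Prime) : 0 < ∏ p ∈ S, p :=
  Finset.prod_pos fun p hp => (hS p hp).pos

lemma maps_Gam (A S : Finset ℕ) (hS : ∀ p ∈ S, p.Prime) :
    ∀ nm ∈ WS A S, (nm.1 % (∏ p ∈ S, p), nm.2 % (∏ p ∈ S, p)) ∈ Gam S := by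
  intro nm hnm
  unfold WS at hnm
  rw [Finset.mem_filter] at hnm
  unfold Gam
  rw [Finset.mem_filter, Finset.mem_product, Finset.mem_range, Finset.mem_range]
  refine ⟨⟨Nat.mod_lt _ (prod_pos' hS), Nat.mod_lt _ (prod_pos' hS)⟩, fun p hp => ?_⟩
  exact (cond_iff (Finset.dvd_prod_of_mem _ hp)).mpr (hnm.2 p hp)

lemma card_WS (A S : Finset ℕ) (hS : ∀ p ∈ S, p.Prime) :
    (WS A S).card = ∑ cc ∈ Gam S, (Ac A (∏ p ∈ S, p) cc.1).card * (Ac A (∏ p ∈ S, p) cc.2).card := by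
  rw [Finset.card_eq_sum_card_fiberwise (maps_Gam A S hS)]
  refine Finset.sum_congr rfl fun cc hcc => ?_
  rw [← Finset.card_product]
  congr 1
  ext nm
  unfold WS Ac
  unfold Gam at hcc
  rw [Finset.mem_filter] at hcc
  simp only [Finset.mem_filter, Finset.mem_product]
  constructor
  · rintro ⟨⟨⟨h1, h2⟩, _⟩, h4⟩
    rw [← h4]
    exact ⟨⟨h1, rfl⟩, h2, rfl⟩
  · rintro ⟨⟨h1, h2⟩, h3, h4⟩
    have h5 : (nm.1 % ∏ p ∈ S, p, nm.2 % ∏ p ∈ S, p) = cc := by
      rw [h2, h4]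
    refine ⟨⟨⟨h1, h3⟩, fun p hp => ?_⟩, h5⟩
    have := hcc.2 p hp
    rw [← h2, ← h4] at this
    exact (cond_iff (Finset.dvd_prod_of_mem _ hp)).mp this

lemma card_WS_insert (A S : Finset ℕ) (hS : ∀ p ∈ S, p.Prime) (p : ℕ) :
    (WS A (insert p S)).card
      = ∑ cc ∈ Gam S, (Wp (Ac A (∏ p ∈ S, p) cc.1) (Ac A (∏ p ∈ S, p) cc.2) p).card := by
  have hmaps : ∀ nm ∈ WS A (insert p S),
      (nm.1 % (∏ p ∈ S, p), nm.2 % (∏ p ∈ S, p)) ∈ Gam S := by
    intro nm hnm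
    refine maps_Gam A S hS nm ?_
    unfold WS at hnm ⊢
    rw [Finset.mem_filter] at hnm ⊢
    exact ⟨hnm.1, fun p' hp' => hnm.2 p' (Finset.mem_insert_of_mem hp')⟩
  rw [Finset.card_eq_sum_card_fiberwise hmaps]
  refine Finset.sum_congr rfl fun cc hcc => ?_
  congr 1
  ext nm
  unfold WS Ac Wp
  unfold Gam at hcc
  rw [Finset.mem_filter] at hcc
  simp only [Finset.mem_filter, Finset.mem_product]
  constructor
  · rintro ⟨⟨⟨h1, h2⟩, h3⟩, h4⟩
    rw [← h4]
    exact ⟨⟨⟨h1, rfl⟩, h2, rfl⟩, h3 p (Finset.mem_insert_self _ _)⟩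
  · rintro ⟨⟨⟨h1, h2⟩, h3, h4⟩, h6⟩
    have h5 : (nm.1 % ∏ p ∈ S, p, nm.2 % ∏ p ∈ S, p) = cc := by
      rw [h2, h4]
    refine ⟨⟨⟨h1, h3⟩, fun p' hp' => ?_⟩, h5⟩
    rcases Finset.mem_insert.mp hp' with h | h
    · rw [h]; exact h6
    · have := hcc.2 p' h
      rw [← h2, ← h4] at this
      exact (cond_iff (Finset.dvd_prod_of_mem _ h)).mp this

lemma sum_Ac (A : Finset ℕ) (q : ℕ) (hq : 0 < q) :
    ∑ c ∈ range q, (Ac A q c).card = A.card := by
  unfold Ac
  exact (Finset.card_eq_sum_card_fiberwise (s := A) (t := range q) (f := fun n => n % q)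
      (fun n _ => Finset.mem_coe.mpr (Finset.mem_range.mpr (Nat.mod_lt _ hq)))).symm

/-- sum of the second coordinate class sizes over admissible pairs -/
lemma sum_Gam_snd (A S : Finset ℕ) (hS : ∀ p ∈ S, p.Prime) :
    ∑ cc ∈ Gam S, (Ac A (∏ p ∈ S, p) cc.2).card ≤ 2 ^ S.card * A.card := by
  set q := ∏ p ∈ S, p with hq
  have hmaps : ∀ cc ∈ Gam S, cc.2 ∈ range q := by
    intro cc hcc
    unfold Gam at hcc
    rw [Finset.mem_filter, Finset.mem_product] at hcc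
    exact hcc.1.2
  rw [← Finset.sum_fiberwise_of_maps_to hmaps, ← sum_Ac A q (prod_pos' hS), Finset.mul_sum]
  refine Finset.sum_le_sum fun c _ => ?_
  have h1 : ∑ cc ∈ (Gam S).filter (fun cc => cc.2 = c), (Ac A q cc.2).card
      = ((Gam S).filter (fun cc => cc.2 = c)).card * (Ac A q c).card := by
    rw [Finset.sum_congr rfl (fun cc hcc => by rw [(Finset.mem_filter.mp hcc).2]),
      Finset.sum_const, smul_eq_mul]
  rw [h1]
  refine Nat.mul_le_mul_right _ ?_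
  refine le_trans ?_ (card_roots c S hS)
  refine Finset.card_le_card_of_injOn (fun cc => cc.1) ?_ ?_
  · intro cc hcc
    have hcc' := Finset.mem_filter.mp (Finset.mem_coe.mp hcc)
    have h2 := hcc'.1
    unfold Gam at h2
    rw [Finset.mem_filter, Finset.mem_product] at h2
    rw [Finset.mem_coe, Finset.mem_filter]
    refine ⟨h2.1.1, fun p hp => ?_⟩
    rw [← hcc'.2]
    exact h2.2 p hp
  · intro a ha b hb hab
    have ha' := Finset.mem_filter.mp (Finset.mem_coe.mp ha)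
    have hb' := Finset.mem_filter.mp (Finset.mem_coe.mp hb)
    exact Prod.ext hab (ha'.2.trans hb'.2.symm)

lemma sum_Gam_fst (A S : Finset ℕ) (hS : ∀ p ∈ S, p.Prime) :
    ∑ cc ∈ Gam S, (Ac A (∏ p ∈ S, p) cc.1).card ≤ 2 ^ S.card * A.card := by
  set q := ∏ p ∈ S, p with hq
  have hmaps : ∀ cc ∈ Gam S, cc.1 ∈ range q := by
    intro cc hcc
    unfold Gam at hcc
    rw [Finset.mem_filter, Finset.mem_product] at hcc
    exact hcc.1.1
  rw [← Finset.sum_fiberwise_of_maps_to hmaps, ← sum_Ac A q (prod_pos' hS), Finset.mul_sum]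
  refine Finset.sum_le_sum fun c _ => ?_
  have h1 : ∑ cc ∈ (Gam S).filter (fun cc => cc.1 = c), (Ac A q cc.1).card
      = ((Gam S).filter (fun cc => cc.1 = c)).card * (Ac A q c).card := by
    rw [Finset.sum_congr rfl (fun cc hcc => by rw [(Finset.mem_filter.mp hcc).2]),
      Finset.sum_const, smul_eq_mul]
  rw [h1]
  refine Nat.mul_le_mul_right _ ?_
  refine le_trans ?_ (card_roots c S hS)
  refine Finset.card_le_card_of_injOn (fun cc => cc.2) ?_ ?_
  · intro cc hcc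
    have hcc' := Finset.mem_filter.mp (Finset.mem_coe.mp hcc)
    have h2 := hcc'.1
    unfold Gam at h2
    rw [Finset.mem_filter, Finset.mem_product] at h2
    rw [Finset.mem_coe, Finset.mem_filter]
    refine ⟨h2.1.2, fun p hp => ?_⟩
    rw [← hcc'.2]
    have h3 := h2.2 p hp
    refine ⟨by rw [add_comm]; exact h3.1, fun hd => h3.2 ?_⟩
    have h4 : p ∣ cc.2 ^ 2 := Dvd.dvd.trans hd (dvd_pow_self _ two_ne_zero)
    have h5 : p ∣ cc.1 ^ 2 := (Nat.dvd_add_left h4).mp h3.1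
    exact (hS p hp).dvd_of_dvd_pow h5
  · intro a ha b hb hab
    have ha' := Finset.mem_filter.mp (Finset.mem_coe.mp ha)
    have hb' := Finset.mem_filter.mp (Finset.mem_coe.mp hb)
    exact Prod.ext (ha'.2.trans hb'.2.symm) hab

/-- Standing assumptions on the set `P` of candidate primes. -/
structure Adm (N m : ℕ) (P : Finset ℕ) : Prop where
  prime : ∀ p ∈ P, p.Prime
  mod4 : ∀ p ∈ P, p % 4 = 1
  big : ∀ p ∈ P, 400 ≤ p
  card : 2 * m ≤ P.card
  prod : ∀ U ⊆ P, U.card ≤ 2 * m → ∏ p ∈ U, p ≤ N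
  mpos : 0 < m

/-- lower bound for a good pair of classes -/
lemma good_pair (N m : ℕ) (P S A : Finset ℕ) (hP : Adm N m P) (hSP : S ⊆ P) (hSm : S.card ≤ m)
    (hA : A ⊆ Icc 1 N) (c c' : ℕ) (τ : ℝ) (hτ : 0 < τ) (hb : Real.log (2 / τ) ≤ m / 100)
    (h1 : τ * N / (∏ p ∈ S, p : ℕ) ≤ (Ac A (∏ p ∈ S, p) c).card)
    (h2 : τ * N / (∏ p ∈ S, p : ℕ) ≤ (Ac A (∏ p ∈ S, p) c').card) :
    3 / 2 * ((P \ S).card : ℝ) * ((Ac A (∏ p ∈ S, p) c).card * (Ac A (∏ p ∈ S, p) c').card)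
      ≤ ∑ p ∈ P \ S, (p : ℝ) * (Wp (Ac A (∏ p ∈ S, p) c) (Ac A (∏ p ∈ S, p) c') p).card := by
  set q := ∏ p ∈ S, p with hq
  have hSprime : ∀ p ∈ S, p.Prime := fun p hp => hP.prime p (hSP hp)
  have hqpos : 0 < q := prod_pos' hSprime
  have hqpos' : (0:ℝ) < q := by exact_mod_cast hqpos
  have hm' : (0:ℝ) < m := by exact_mod_cast hP.mpos
  have hNpos : (0:ℝ) < N := by
    have : q ≤ N := hP.prod S hSP (by omega)
    exact_mod_cast lt_of_lt_of_le hqpos this
  have hthr : 0 < τ * N / q := by positivity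
  have key : ∀ d : ℕ, τ * N / q ≤ (Ac A q d).card →
      (Ac A q d).Nonempty ∧
      ∑ p ∈ P \ S, kapB (Ac A q d) p ≤ (((P \ S).card : ℝ) / m + 1) * (m / 100) := by
    intro d hd
    have hcpos : (0:ℝ) < (Ac A q d).card := lt_of_lt_of_le hthr hd
    have hne : (Ac A q d).Nonempty := by
      rw [← Finset.card_pos]; exact_mod_cast hcpos
    refine ⟨hne, chunk (kapB (Ac A q d)) m hP.mpos (m / 100) (by positivity) _ (P \ S) rfl ?_⟩
    intro T hT hTm
    have hTP : T ⊆ P := hT.trans Finset.sdiff_subset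
    have hTdisj : Disjoint S T := by
      rw [Finset.disjoint_left]
      intro p hp hp2
      exact (Finset.mem_sdiff.mp (hT hp2)).2 hp
    have h3 := budget N q d hqpos (Ac A q d) T hne (by
      intro n hn
      unfold Ac at hn
      rw [Finset.mem_filter] at hn ⊢
      refine ⟨hA hn.1, ?_⟩
      unfold Nat.ModEq
      rw [← hn.2, Nat.mod_mod]) (fun p hp => hP.prime p (hTP hp)) (by
      intro p hp hd'
      obtain ⟨p', hp', hdvd⟩ := (Prime.dvd_finsetProd_iff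
        (hP.prime p (hTP hp)).prime _).mp hd'
      have : p = p' := (Nat.prime_dvd_prime_iff_eq (hP.prime p (hTP hp)) (hSprime p' hp')).mp hdvd
      rw [← this] at hp'
      exact Finset.disjoint_left.mp hTdisj hp' hp) (by
      rw [hq, ← Finset.prod_union hTdisj]
      refine hP.prod _ (Finset.union_subset hSP hTP) ?_
      have := Finset.card_union_le S T
      omega)
    refine h3.trans (le_trans ?_ hb)
    apply Real.log_le_log
    · positivity
    · rw [div_le_div_iff₀ (by positivity) hτ]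
      have h4 : τ * N ≤ (Ac A q d).card * q := by
        have := hd
        rwa [div_le_iff₀ hqpos'] at this
      nlinarith
  obtain ⟨ne1, k1⟩ := key c h1
  obtain ⟨ne2, k2⟩ := key c' h2
  set X : ℝ := (Ac A q c).card * (Ac A q c').card with hX
  have hX0 : 0 ≤ X := by positivity
  have hK : (m : ℝ) ≤ ((P \ S).card : ℝ) := by
    have h3 : (P \ S).card = P.card - S.card := Finset.card_sdiff_of_subset hSP
    have h4 := hP.card
    have : m ≤ (P \ S).card := by omega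
    exact_mod_cast this
  have h5 : ∀ p ∈ P \ S, 2 * (X * (1 - 6 * kapB (Ac A q c) p - 6 * kapB (Ac A q c') p - 1 / 100))
      ≤ (p : ℝ) * (Wp (Ac A q c) (Ac A q c') p).card := by
    intro p hp
    have hpP : p ∈ P := (Finset.mem_sdiff.mp hp).1
    have h6 := pair_lower (Ac A q c) (Ac A q c') p (hP.prime p hpP) (hP.mod4 p hpP) ne1 ne2
    refine le_trans ?_ h6
    have h7 : (4:ℝ) / p ≤ 1 / 100 := by
      have h8 : (400:ℝ) ≤ p := by exact_mod_cast hP.big p hpP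
      rw [div_le_div_iff₀ (by linarith) (by norm_num)]
      linarith
    have h9 : X * (1 - 6 * kapB (Ac A q c) p - 6 * kapB (Ac A q c') p - 1 / 100)
        ≤ X * (1 - 6 * kapB (Ac A q c) p - 6 * kapB (Ac A q c') p - 4 / p) :=
      mul_le_mul_of_nonneg_left (by linarith) hX0
    linarith
  refine le_trans ?_ (Finset.sum_le_sum h5)
  rw [← Finset.mul_sum, ← Finset.mul_sum, Finset.sum_sub_distrib, Finset.sum_sub_distrib,
    Finset.sum_sub_distrib, ← Finset.mul_sum, ← Finset.mul_sum, Finset.sum_const,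
    Finset.sum_const, nsmul_eq_mul, nsmul_eq_mul]
  set K : ℝ := ((P \ S).card : ℝ) with hKdef
  have h10 : (K / m + 1) * (m / 100) = K / 100 + m / 100 := by
    field_simp
  rw [h10] at k1 k2
  have h11 : 3 / 4 * K ≤ K * 1 - 6 * ∑ p ∈ P \ S, kapB (Ac A q c) p
      - 6 * ∑ p ∈ P \ S, kapB (Ac A q c') p - K * (1 / 100) := by
    nlinarith
  have h12 := mul_le_mul_of_nonneg_left h11 hX0
  nlinarith

/-- **The greedy step.** -/
theorem step (N m : ℕ) (P S A : Finset ℕ) (hP : Adm N m P) (hSP : S ⊆ P) (hSm : S.card < m)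
    (hA : A ⊆ Icc 1 N) (τ : ℝ) (hτ : 0 < τ) (hb : Real.log (2 / τ) ≤ m / 100) :
    ∃ p ∈ P \ S, 3 / 2 * (((WS A S).card : ℝ)
        - 2 * (τ * N / (∏ p ∈ S, p : ℕ)) * (2 ^ S.card * A.card))
      ≤ (p : ℝ) * (WS A (insert p S)).card := by
  set q := ∏ p ∈ S, p with hq
  have hSprime : ∀ p ∈ S, p.Prime := fun p hp => hP.prime p (hSP hp)
  have hqpos : 0 < q := prod_pos' hSprime
  have hqpos' : (0:ℝ) < q := by exact_mod_cast hqpos
  set t : ℝ := τ * N / q with ht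
  have ht0 : 0 ≤ t := by positivity
  have hKpos : 0 < (P \ S).card := by
    have h3 : (P \ S).card = P.card - S.card := Finset.card_sdiff_of_subset hSP
    have h4 := hP.card
    omega
  have hKpos' : (0:ℝ) < (P \ S).card := by exact_mod_cast hKpos
  by_contra hcon
  have hlt : ∀ p ∈ P \ S, (p : ℝ) * (WS A (insert p S)).card
      < 3 / 2 * (((WS A S).card : ℝ) - 2 * t * (2 ^ S.card * A.card)) := by
    intro p hp
    by_contra h
    exact hcon ⟨p, hp, not_lt.mp h⟩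
  have hsum : ∑ p ∈ P \ S, (p : ℝ) * (WS A (insert p S)).card
      < ∑ p ∈ P \ S, 3 / 2 * (((WS A S).card : ℝ) - 2 * t * (2 ^ S.card * A.card)) :=
    Finset.sum_lt_sum_of_nonempty (Finset.card_pos.mp hKpos) hlt
  rw [Finset.sum_const, nsmul_eq_mul] at hsum
  -- lower bound
  have hlow : (3 / 2 * ((P \ S).card : ℝ)) * (((WS A S).card : ℝ)
      - 2 * t * (2 ^ S.card * A.card)) ≤ ∑ p ∈ P \ S, (p : ℝ) * (WS A (insert p S)).card := by
    have e1 : ∑ p ∈ P \ S, (p : ℝ) * (WS A (insert p S)).card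
        = ∑ cc ∈ Gam S, ∑ p ∈ P \ S, (p : ℝ) * (Wp (Ac A q cc.1) (Ac A q cc.2) p).card := by
      rw [Finset.sum_comm]
      refine Finset.sum_congr rfl fun p _ => ?_
      rw [card_WS_insert A S hSprime p, Nat.cast_sum, Finset.mul_sum]
    rw [e1]
    have e2 : ∀ cc ∈ Gam S, (3 / 2 * ((P \ S).card : ℝ)) *
        ((Ac A q cc.1).card * (Ac A q cc.2).card
          - t * ((Ac A q cc.1).card + (Ac A q cc.2).card))
        ≤ ∑ p ∈ P \ S, (p : ℝ) * (Wp (Ac A q cc.1) (Ac A q cc.2) p).card := by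
      intro cc _
      have hnn : 0 ≤ ∑ p ∈ P \ S, (p : ℝ) * (Wp (Ac A q cc.1) (Ac A q cc.2) p).card :=
        Finset.sum_nonneg fun p _ => by positivity
      have c1 : (0:ℝ) ≤ (Ac A q cc.1).card := by positivity
      have c2 : (0:ℝ) ≤ (Ac A q cc.2).card := by positivity
      by_cases g1 : t ≤ (Ac A q cc.1).card
      · by_cases g2 : t ≤ (Ac A q cc.2).card
        · have h3 := good_pair N m P S A hP hSP hSm.le hA cc.1 cc.2 τ hτ hb g1 g2
          refine le_trans ?_ h3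
          refine mul_le_mul_of_nonneg_left ?_ (by positivity)
          have : 0 ≤ t * (((Ac A q cc.1).card : ℝ) + (Ac A q cc.2).card) := by positivity
          linarith
        · refine le_trans ?_ hnn
          refine mul_nonpos_of_nonneg_of_nonpos (by positivity) ?_
          have g2 := not_le.mp g2
          nlinarith [mul_nonneg c1 (sub_nonneg.mpr g2.le), mul_nonneg ht0 c2]
      · refine le_trans ?_ hnn
        refine mul_nonpos_of_nonneg_of_nonpos (by positivity) ?_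
        have g1 := not_le.mp g1
        nlinarith [mul_nonneg c2 (sub_nonneg.mpr g1.le), mul_nonneg ht0 c1]
    refine le_trans ?_ (Finset.sum_le_sum e2)
    rw [← Finset.mul_sum]
    refine mul_le_mul_of_nonneg_left ?_ (by positivity)
    rw [Finset.sum_sub_distrib, ← Finset.mul_sum, Finset.sum_add_distrib]
    have f1 : ∑ cc ∈ Gam S, (((Ac A q cc.1).card : ℝ) * (Ac A q cc.2).card)
        = ((WS A S).card : ℝ) := by
      rw [card_WS A S hSprime, Nat.cast_sum]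
      refine Finset.sum_congr rfl fun cc _ => ?_
      rw [Nat.cast_mul]
    have f2 : ∑ cc ∈ Gam S, ((Ac A q cc.1).card : ℝ) ≤ 2 ^ S.card * A.card := by
      exact_mod_cast sum_Gam_fst A S hSprime
    have f3 : ∑ cc ∈ Gam S, ((Ac A q cc.2).card : ℝ) ≤ 2 ^ S.card * A.card := by
      exact_mod_cast sum_Gam_snd A S hSprime
    rw [f1]
    nlinarith
  nlinarith

/-- **Greedy choice of `j` primes.** -/
theorem greedy (N m : ℕ) (P A : Finset ℕ) (hP : Adm N m P) (hA : A ⊆ Icc 1 N) (τ : ℝ)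
    (hτ : 0 < τ) (hb : Real.log (2 / τ) ≤ m / 100) (j : ℕ) (hj : j ≤ m) :
    ∃ S ⊆ P, S.card = j ∧
      (2:ℝ) ^ j * ((3 / 4 : ℝ) ^ j * (A.card : ℝ) ^ 2 - 2 * j * (τ * N) * A.card)
        ≤ ((∏ p ∈ S, p : ℕ) : ℝ) * (WS A S).card := by
  induction j with
  | zero =>
    refine ⟨∅, Finset.empty_subset _, rfl, ?_⟩
    have h1 : WS A ∅ = A ×ˢ A := by
      unfold WS
      simp
    rw [h1, Finset.card_product]
    simp [sq]
  | succ j ih =>
    obtain ⟨S, hSP, hSj, hS⟩ := ih (by omega)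
    obtain ⟨p, hp, hstep⟩ := step N m P S A hP hSP (by omega) hA τ hτ hb
    have hpS : p ∉ S := (Finset.mem_sdiff.mp hp).2
    have hpP : p ∈ P := (Finset.mem_sdiff.mp hp).1
    refine ⟨insert p S, Finset.insert_subset hpP hSP, ?_, ?_⟩
    · rw [Finset.card_insert_of_notMem hpS, hSj]
    · have hSprime : ∀ p ∈ S, p.Prime := fun p hp => hP.prime p (hSP hp)
      have hqpos : 0 < ∏ p ∈ S, p := prod_pos' hSprime
      have hqpos' : (0:ℝ) < ((∏ p ∈ S, p : ℕ) : ℝ) := by exact_mod_cast hqpos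
      rw [Finset.prod_insert hpS]
      set q := ∏ p ∈ S, p with hq
      have h1 := mul_le_mul_of_nonneg_left hstep hqpos'.le
      have h2 : (q : ℝ) * (3 / 2 * (((WS A S).card : ℝ)
          - 2 * (τ * N / (q : ℝ)) * (2 ^ S.card * A.card)))
          = 3 / 2 * ((q : ℝ) * (WS A S).card - 2 ^ j * (2 * (τ * N) * A.card)) := by
        rw [hSj]
        field_simp
      rw [h2] at h1
      have h3 : ((p * q : ℕ) : ℝ) * (WS A (insert p S)).card
          = (q : ℝ) * ((p : ℝ) * (WS A (insert p S)).card) := by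
        push_cast; ring
      rw [h3]
      refine le_trans ?_ h1
      have hA0 : (0:ℝ) ≤ A.card := by positivity
      have hN0 : (0:ℝ) ≤ N := by positivity
      have hX : 0 ≤ (τ * N) * A.card := by positivity
      have h4 : (2:ℝ) ^ (j + 1) * ((3 / 4 : ℝ) ^ (j + 1) * (A.card : ℝ) ^ 2
          - 2 * ((j + 1 : ℕ) : ℝ) * (τ * N) * A.card)
          ≤ 3 / 2 * ((2:ℝ) ^ j * ((3 / 4 : ℝ) ^ j * (A.card : ℝ) ^ 2
            - 2 * j * (τ * N) * A.card) - 2 ^ j * (2 * (τ * N) * A.card)) := by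
        have e : 3 / 2 * ((2:ℝ) ^ j * ((3 / 4 : ℝ) ^ j * (A.card : ℝ) ^ 2
            - 2 * j * (τ * N) * A.card) - 2 ^ j * (2 * (τ * N) * A.card))
            - (2:ℝ) ^ (j + 1) * ((3 / 4 : ℝ) ^ (j + 1) * (A.card : ℝ) ^ 2
          - 2 * ((j + 1 : ℕ) : ℝ) * (τ * N) * A.card)
            = (2:ℝ) ^ j * ((j + 1) * ((τ * N) * A.card)) := by
          rw [pow_succ, pow_succ]
          push_cast
          ring
        have e' : 0 ≤ (2:ℝ) ^ j * (((j : ℝ) + 1) * ((τ * N) * A.card)) := by positivity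
        linarith
      refine h4.trans ?_
      linarith

end

end Pool.Agent.SQS
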