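import Mathlib
import Pool.Agent.PNTAP.Main
import Pool.Agent.SQS.Step

set_option autoImplicit false

/-!
# Sidon subsets of the squares
-/

namespace Pool.Agent.SQS

open Finset Filter Topology

noncomputable section

/-- a Sidon set of natural numbers -/
def IsSidon (X : Set ℕ) : Prop :=
  ∀ a ∈ X, ∀ b ∈ X, ∀ c ∈ X, ∀ d ∈ X, a + b = c + d → (a = c ∧ b = d) ∨ (a = d ∧ b = c)

/-- ordered representations of `s` as a sum of two squares of elements of `A` -/
def reps (A : Finset ℕ) (s : ℕ) : Finset (ℕ × ℕ) :=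
  (A ×ˢ A).filter (fun ab => ab.1 ^ 2 + ab.2 ^ 2 = s)

lemma WS_le (N g : ℕ) (A S : Finset ℕ) (hA : A ⊆ Icc 1 N) (hS : ∀ p ∈ S, p.Prime)
    (hg : ∀ s, (reps A s).card ≤ g) :
    (∏ p ∈ S, p) * (WS A S).card ≤ g * (2 * N ^ 2) := by
  set q := ∏ p ∈ S, p with hq
  have hqpos : 0 < q := prod_pos' hS
  have hdvd : ∀ nm ∈ WS A S, q ∣ nm.1 ^ 2 + nm.2 ^ 2 := by
    intro nm hnm
    unfold WS at hnm
    rw [Finset.mem_filter] at hnm
    exact Finset.prod_primes_dvd _ (fun p hp => (hS p hp).prime) fun p hp => (hnm.2 p hp).1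
  have hmem : ∀ nm ∈ WS A S, nm.1 ∈ A ∧ nm.2 ∈ A := by
    intro nm hnm
    unfold WS at hnm
    rw [Finset.mem_filter, Finset.mem_product] at hnm
    exact hnm.1
  have hfib : ∀ t ∈ (WS A S).image (fun nm => (nm.1 ^ 2 + nm.2 ^ 2) / q),
      ((WS A S).filter (fun nm => (nm.1 ^ 2 + nm.2 ^ 2) / q = t)).card ≤ g := by
    intro t _
    refine le_trans (Finset.card_le_card ?_) (hg (t * q))
    intro nm hnm
    rw [Finset.mem_filter] at hnm
    have m1 := hmem nm hnm.1
    unfold reps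
    rw [Finset.mem_filter, Finset.mem_product]
    refine ⟨m1, ?_⟩
    have e1 := Nat.div_mul_cancel (hdvd nm hnm.1)
    rw [hnm.2] at e1
    exact e1.symm
  have h1 := Finset.card_le_mul_card_image (WS A S) g hfib
  have himg : ((WS A S).image (fun nm => (nm.1 ^ 2 + nm.2 ^ 2) / q)).card ≤ 2 * N ^ 2 / q := by
    have hsub : (WS A S).image (fun nm => (nm.1 ^ 2 + nm.2 ^ 2) / q) ⊆ Icc 1 (2 * N ^ 2 / q) := by
      intro t ht
      obtain ⟨ab, hab, rfl⟩ := Finset.mem_image.mp ht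
      have m2 := hmem ab hab
      have a1 := Finset.mem_Icc.mp (hA m2.1)
      have a2 := Finset.mem_Icc.mp (hA m2.2)
      rw [Finset.mem_Icc]
      constructor
      · have h2 : 0 < ab.1 ^ 2 + ab.2 ^ 2 := by
          have : 0 < ab.1 ^ 2 := pow_pos (by omega) 2
          omega
        exact Nat.div_pos (Nat.le_of_dvd h2 (hdvd ab hab)) hqpos
      · apply Nat.div_le_div_right
        have b1 : ab.1 ^ 2 ≤ N ^ 2 := Nat.pow_le_pow_left a1.2 2
        have b2 : ab.2 ^ 2 ≤ N ^ 2 := Nat.pow_le_pow_left a2.2 2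
        omega
    have := Finset.card_le_card hsub
    rwa [Nat.card_Icc, Nat.add_sub_cancel] at this
  calc q * (WS A S).card ≤ q * (g * (2 * N ^ 2 / q)) :=
        Nat.mul_le_mul_left _ (h1.trans (Nat.mul_le_mul_left _ himg))
    _ = g * (q * (2 * N ^ 2 / q)) := by ring
    _ ≤ g * (2 * N ^ 2) := Nat.mul_le_mul_left _ (Nat.mul_div_le _ _)

/-- many primes `1` modulo `4` up to `L ^ 2` -/
lemma supply : ∀ᶠ L : ℝ in atTop, L + 400 ≤ PNTAP.piC (1 : ZMod 4) (L ^ 2) := by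
  have h1 := PNTAP.tendsto_primeCounting_class (q := 4) (b := (1 : ZMod 4)) isUnit_one
  have hφ : ((Nat.totient 4 : ℕ) : ℝ)⁻¹ = 1 / 2 := by
    have : Nat.totient 4 = 2 := by decide
    rw [this]; norm_num
  rw [hφ] at h1
  have h2 : ∀ᶠ x : ℝ in atTop, 1 / 4 < PNTAP.piC (1 : ZMod 4) x * Real.log x / x :=
    h1.eventually (lt_mem_nhds (by norm_num))
  have h3 : Tendsto (fun L : ℝ => L ^ 2) atTop atTop := tendsto_pow_atTop two_ne_zero
  have h4 := h3.eventually h2
  have h5 : ∀ᶠ L : ℝ in atTop, Real.log L ≤ L / 16 := by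
    have := (Real.isLittleO_log_id_atTop.bound (show (0:ℝ) < 1 / 16 by norm_num))
    filter_upwards [this, eventually_ge_atTop (1:ℝ)] with L hL hL1
    have a1 : ‖Real.log L‖ = Real.log L := by
      rw [Real.norm_eq_abs, abs_of_nonneg (Real.log_nonneg hL1)]
    have a2 : ‖id L‖ = L := by
      rw [id, Real.norm_eq_abs, abs_of_nonneg (by linarith)]
    rw [a1, a2] at hL
    linarith
  filter_upwards [h4, h5, eventually_ge_atTop (400:ℝ)] with L a1 a2 a3
  have hL : 0 < L := by linarith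
  have hlog : 0 < Real.log L := Real.log_pos (by linarith)
  have e1 : Real.log (L ^ 2) = 2 * Real.log L := by
    rw [Real.log_pow]; norm_num
  rw [e1, lt_div_iff₀ (by positivity)] at a1
  set y := PNTAP.piC (1 : ZMod 4) (L ^ 2) with hy
  by_contra hcon
  have hcon := not_le.mp hcon
  have hy0 : 0 ≤ y := by
    rw [hy]; unfold PNTAP.piC; positivity
  have b1 : y * (2 * Real.log L) ≤ (L + 400) * (2 * (L / 16)) := by
    apply mul_le_mul hcon.le (by linarith) (by positivity) (by linarith)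
  nlinarith

/-- the admissible set of primes -/
def Pset (L : ℝ) : Finset ℕ := (PNTAP.primesC (1 : ZMod 4) (L ^ 2)).filter (fun p => 400 ≤ p)

lemma adm (N : ℕ) (hN : 0 < N) (m : ℕ) (hm : 0 < m) (L : ℝ) (hL : L = Real.log N) (hL1 : 3 ≤ L)
    (hmL : (m : ℝ) ≤ L / (6 * Real.log L)) (hsup : L + 400 ≤ PNTAP.piC (1 : ZMod 4) (L ^ 2)) :
    Adm N m (Pset L) := by
  have hLpos : 0 < L := by linarith
  have hlog : 1 ≤ Real.log L := by
    rw [Real.le_log_iff_exp_le hLpos]
    have := Real.exp_one_lt_d9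
    linarith
  have hlogpos : 0 < Real.log L := by linarith
  have hmul : (m : ℝ) * Real.log L ≤ L / 6 := by
    have := mul_le_mul_of_nonneg_right hmL hlogpos.le
    refine this.trans (le_of_eq ?_)
    field_simp
  have hmemP : ∀ p ∈ Pset L, (p.Prime ∧ (p : ZMod 4) = 1) ∧ (p : ℝ) ≤ L ^ 2 ∧ 400 ≤ p := by
    intro p hp
    unfold Pset PNTAP.primesC at hp
    rw [Finset.mem_filter, Finset.mem_filter, Finset.mem_Ioc] at hp
    refine ⟨hp.1.2, ?_, hp.2⟩
    exact (Nat.le_floor_iff (by positivity)).mp hp.1.1.2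
  refine ⟨fun p hp => (hmemP p hp).1.1, ?_, fun p hp => (hmemP p hp).2.2, ?_, ?_, hm⟩
  · intro p hp
    have h1 := (hmemP p hp).1.2
    have h2 : ((p : ℕ) : ZMod 4) = ((1 : ℕ) : ZMod 4) := by rw [h1]; simp
    rw [ZMod.natCast_eq_natCast_iff'] at h2
    simpa using h2
  · have h1 : (PNTAP.primesC (1 : ZMod 4) (L ^ 2)).card ≤ (Pset L).card + 400 := by
      have h2 : PNTAP.primesC (1 : ZMod 4) (L ^ 2) ⊆ Pset L ∪ range 400 := by
        intro p hp
        rw [Finset.mem_union]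
        by_cases h : 400 ≤ p
        · left; unfold Pset; rw [Finset.mem_filter]; exact ⟨hp, h⟩
        · right; rw [Finset.mem_range]; omega
      have h3 := Finset.card_le_card h2
      have h4 := Finset.card_union_le (Pset L) (range 400)
      rw [Finset.card_range] at h4
      omega
    have h2 : (PNTAP.piC (1 : ZMod 4) (L ^ 2)) ≤ (Pset L).card + 400 := by
      unfold PNTAP.piC; exact_mod_cast h1
    have h3 : (m : ℝ) ≤ L / 6 := by nlinarith [show (0:ℝ) ≤ m by positivity]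
    have h4 : (2 * (m : ℝ)) ≤ (Pset L).card := by linarith
    exact_mod_cast h4
  · intro U hU hUm
    have h1 : ∏ p ∈ U, (p : ℝ) ≤ ∏ p ∈ U, L ^ 2 :=
      Finset.prod_le_prod (fun p _ => by positivity) fun p hp => (hmemP p (hU hp)).2.1
    rw [Finset.prod_const] at h1
    have h2 : (L ^ 2) ^ U.card ≤ (L ^ 2) ^ (2 * m) :=
      pow_le_pow_right₀ (by nlinarith) hUm
    have h3 : (L ^ 2) ^ (2 * m) ≤ (N : ℝ) := by
      have e1 : (L ^ 2) ^ (2 * m) = Real.exp (4 * (m * Real.log L)) := by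
        rw [← pow_mul, ← Real.exp_log (show 0 < L ^ (2 * (2 * m)) by positivity), Real.log_pow]
        congr 1
        push_cast
        ring
      rw [e1]
      have e2 : (N : ℝ) = Real.exp L := by
        rw [hL, Real.exp_log (by exact_mod_cast hN)]
      rw [e2]
      apply Real.exp_le_exp.mpr
      linarith
    have h4 : ((∏ p ∈ U, p : ℕ) : ℝ) ≤ N := by
      rw [Nat.cast_prod]
      exact h1.trans (h2.trans h3)
    exact_mod_cast h4

lemma exp_neg_le : Real.exp (-(3/10)) ≤ 3 / 4 := by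
  have h1 := Real.quadratic_le_exp_of_nonneg (show (0:ℝ) ≤ 3/10 by norm_num)
  have h2 : Real.exp (-(3/10)) = (Real.exp (3/10))⁻¹ := Real.exp_neg _
  rw [h2]
  have h3 : (4:ℝ)/3 ≤ Real.exp (3/10) := by
    refine le_trans ?_ h1
    norm_num
  rw [inv_le_comm₀ (Real.exp_pos _) (by norm_num)]
  norm_num
  linarith

lemma exp_third_le : Real.exp (1/3) ≤ 3 / 2 := by
  have h1 : Real.exp (1/3) ^ 3 = Real.exp 1 := by
    rw [← Real.exp_nat_mul]; norm_num
  by_contra h
  have h := not_le.mp h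
  have h2 : (3/2:ℝ) ^ 3 < Real.exp (1/3) ^ 3 := pow_lt_pow_left₀ h (by norm_num) (by norm_num)
  rw [h1] at h2
  have := Real.exp_one_lt_d9
  norm_num at h2
  linarith

/-- numerical endgame -/
lemma endgame (m : ℕ) (hm : 5000 ≤ m) (N a G : ℝ) (hN : 0 < N)
    (ha : N * Real.exp (-(7 * m / 10000)) ≤ a) (hG : G ≤ Real.exp (7 * m / 10000))
    (h : (2:ℝ) ^ (m / 100) * ((3 / 4 : ℝ) ^ (m / 100) * a ^ 2
      - 2 * ((m / 100 : ℕ) : ℝ) * (2 * Real.exp (-(m / 100)) * N) * a) ≤ G * (2 * N ^ 2)) :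
    False := by
  set j := m / 100 with hj
  have hjm : (j : ℝ) ≤ m / 100 := by
    rw [hj]; exact_mod_cast Nat.cast_div_le
  have hjm2 : (m : ℝ) / 100 - 1 ≤ j := by
    have : m < 100 * (j + 1) := by omega
    have h2 : (m : ℝ) < 100 * ((j : ℝ) + 1) := by exact_mod_cast this
    linarith
  have hm' : (5000:ℝ) ≤ m := by exact_mod_cast hm
  have hapos : 0 < a := lt_of_lt_of_le (mul_pos hN (Real.exp_pos _)) ha
  -- C1
  have b1 : Real.exp (-(3 * m / 1000)) ≤ (3 / 4 : ℝ) ^ j := by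
    have e1 : Real.exp (-(3/10)) ^ j ≤ (3 / 4 : ℝ) ^ j :=
      pow_le_pow_left₀ (Real.exp_pos _).le exp_neg_le j
    refine le_trans ?_ e1
    rw [← Real.exp_nat_mul]
    apply Real.exp_le_exp.mpr
    nlinarith
  have b2 : 8 * (j : ℝ) ≤ Real.exp (63 * m / 10000) := by
    have h1 := Real.quadratic_le_exp_of_nonneg (show (0:ℝ) ≤ 63 * m / 10000 by positivity)
    refine le_trans ?_ h1
    nlinarith
  have b3 : 8 * (j : ℝ) * Real.exp (-(m / 100)) * N ≤ (3 / 4 : ℝ) ^ j * a := by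
    have e1 : 8 * (j : ℝ) * Real.exp (-((m:ℝ) / 100))
        ≤ Real.exp (63 * m / 10000) * Real.exp (-((m:ℝ) / 100)) :=
      mul_le_mul_of_nonneg_right b2 (Real.exp_pos _).le
    have e2 : Real.exp (63 * m / 10000) * Real.exp (-((m:ℝ) / 100))
        = Real.exp (-(3 * m / 1000)) * Real.exp (-(7 * m / 10000)) := by
      rw [← Real.exp_add, ← Real.exp_add]
      congr 1
      ring
    have e3 : Real.exp (-(3 * m / 1000)) * Real.exp (-(7 * m / 10000)) * N
        ≤ (3 / 4 : ℝ) ^ j * a := by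
      rw [mul_assoc]
      apply mul_le_mul b1 _ (by positivity) (by positivity)
      rw [mul_comm]; exact ha
    calc 8 * (j : ℝ) * Real.exp (-((m:ℝ) / 100)) * N
        ≤ (Real.exp (63 * m / 10000) * Real.exp (-((m:ℝ) / 100))) * N :=
          mul_le_mul_of_nonneg_right e1 hN.le
      _ = Real.exp (-(3 * m / 1000)) * Real.exp (-(7 * m / 10000)) * N := by rw [e2]
      _ ≤ _ := e3
  have b4 : (3 / 4 : ℝ) ^ j * a ^ 2 / 2 ≤ (3 / 4 : ℝ) ^ j * a ^ 2
      - 2 * (j : ℝ) * (2 * Real.exp (-(m / 100)) * N) * a := by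
    have := mul_le_mul_of_nonneg_right b3 hapos.le
    nlinarith
  have b5 : (2:ℝ) ^ j * ((3 / 4 : ℝ) ^ j * a ^ 2 / 2) ≤ G * (2 * N ^ 2) :=
    (mul_le_mul_of_nonneg_left b4 (by positivity)).trans h
  have b6 : (3 / 2 : ℝ) ^ j * a ^ 2 ≤ 4 * Real.exp (7 * m / 10000) * N ^ 2 := by
    have e1 : (2:ℝ) ^ j * ((3 / 4 : ℝ) ^ j * a ^ 2 / 2) = (3 / 2 : ℝ) ^ j * a ^ 2 / 2 := by
      have : (3 / 2 : ℝ) ^ j = (2:ℝ) ^ j * (3 / 4 : ℝ) ^ j := by
        rw [← mul_pow]; norm_num
      rw [this]; ring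
    rw [e1] at b5
    have e2 : G * (2 * N ^ 2) ≤ Real.exp (7 * m / 10000) * (2 * N ^ 2) :=
      mul_le_mul_of_nonneg_right hG (by positivity)
    linarith
  -- C2
  have c1 : Real.exp ((m : ℝ) / 300 - 1 / 3) ≤ (3 / 2 : ℝ) ^ j := by
    have e1 : Real.exp (1/3) ^ j ≤ (3 / 2 : ℝ) ^ j :=
      pow_le_pow_left₀ (Real.exp_pos _).le exp_third_le j
    refine le_trans ?_ e1
    rw [← Real.exp_nat_mul]
    apply Real.exp_le_exp.mpr
    linarith
  have c2 : N ^ 2 * Real.exp (-(14 * m / 10000)) ≤ a ^ 2 := by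
    have e1 : (N * Real.exp (-(7 * m / 10000))) ^ 2 ≤ a ^ 2 :=
      pow_le_pow_left₀ (by positivity) ha 2
    refine le_trans (le_of_eq ?_) e1
    rw [mul_pow, ← Real.exp_nat_mul]
    congr 2
    push_cast
    ring
  have c3 : Real.exp ((m : ℝ) / 300 - 1 / 3) * (N ^ 2 * Real.exp (-(14 * m / 10000)))
      ≤ 4 * Real.exp (7 * m / 10000) * N ^ 2 :=
    (mul_le_mul c1 c2 (by positivity) (by positivity)).trans b6
  have c4 : Real.exp ((m : ℝ) / 300 - 1 / 3 - 14 * m / 10000 - 7 * m / 10000) ≤ 4 := by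
    have e1 : Real.exp ((m : ℝ) / 300 - 1 / 3) * (N ^ 2 * Real.exp (-(14 * m / 10000)))
        = Real.exp ((m : ℝ) / 300 - 1 / 3 - 14 * m / 10000 - 7 * m / 10000)
          * (Real.exp (7 * m / 10000) * N ^ 2) := by
      have : Real.exp ((m : ℝ) / 300 - 1 / 3 - 14 * m / 10000 - 7 * m / 10000)
            * Real.exp (7 * m / 10000)
          = Real.exp ((m : ℝ) / 300 - 1 / 3) * Real.exp (-(14 * m / 10000)) := by
        rw [← Real.exp_add, ← Real.exp_add]; congr 1; ring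
      calc Real.exp ((m : ℝ) / 300 - 1 / 3) * (N ^ 2 * Real.exp (-(14 * m / 10000)))
          = (Real.exp ((m : ℝ) / 300 - 1 / 3) * Real.exp (-(14 * m / 10000))) * N ^ 2 := by ring
        _ = _ := by rw [← this]; ring
    rw [e1] at c3
    have e2 : 4 * Real.exp (7 * m / 10000) * N ^ 2 = 4 * (Real.exp (7 * m / 10000) * N ^ 2) := by
      ring
    rw [e2] at c3
    exact le_of_mul_le_mul_right c3 (by positivity)
  have c5 := Real.add_one_le_exp ((m : ℝ) / 300 - 1 / 3 - 14 * m / 10000 - 7 * m / 10000)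
  linarith

/-- the exponent `log N / log log N` with a small constant -/
def ex (N : ℕ) : ℝ := 1 / 10000 * (Real.log N / Real.log (Real.log N))

/-- **Popular sums.** -/
theorem popular : ∃ N₀ : ℕ, 1 ≤ N₀ ∧ ∀ N : ℕ, N₀ ≤ N → 1 ≤ ex N ∧ ∀ A : Finset ℕ, A ⊆ Icc 1 N →
    N * Real.exp (-(ex N)) ≤ (A.card : ℝ) → ∃ s, Real.exp (ex N) ≤ ((reps A s).card : ℝ) := by
  -- eventual conditions in `L = log N`
  have hev : ∀ᶠ L : ℝ in atTop, L + 400 ≤ PNTAP.piC (1 : ZMod 4) (L ^ 2) ∧ 3 ≤ L ∧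
      5001 ≤ L / (6 * Real.log L) := by
    have h1 : ∀ᶠ L : ℝ in atTop, Real.log L ≤ L / 30006 := by
      have := (Real.isLittleO_log_id_atTop.bound (show (0:ℝ) < 1 / 30006 by norm_num))
      filter_upwards [this, eventually_ge_atTop (1:ℝ)] with L hL hL1
      have a1 : ‖Real.log L‖ = Real.log L := by
        rw [Real.norm_eq_abs, abs_of_nonneg (Real.log_nonneg hL1)]
      have a2 : ‖id L‖ = L := by
        rw [id, Real.norm_eq_abs, abs_of_nonneg (by linarith)]
      rw [a1, a2] at hL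
      linarith
    filter_upwards [supply, h1, eventually_ge_atTop (3:ℝ)] with L a1 a2 a3
    have hlog : 0 < Real.log L := Real.log_pos (by linarith)
    refine ⟨a1, a3, ?_⟩
    rw [le_div_iff₀ (by positivity)]
    linarith
  have hlogN : Tendsto (fun N : ℕ => Real.log (N : ℝ)) atTop atTop :=
    Real.tendsto_log_atTop.comp tendsto_natCast_atTop_atTop
  obtain ⟨N₀, hN₀⟩ := Filter.eventually_atTop.mp
    ((hlogN.eventually hev).and (eventually_ge_atTop 1))
  refine ⟨max N₀ 1, le_max_right _ _, fun N hN' => ?_⟩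
  have hN : N₀ ≤ N := (le_max_left _ _).trans hN'
  obtain ⟨⟨hsup, hL3, hbig⟩, hN1⟩ := hN₀ N hN
  set L := Real.log (N : ℝ) with hL
  have hLpos : 0 < L := by linarith
  have hlogpos : 0 < Real.log L := Real.log_pos (by linarith)
  set m : ℕ := ⌊L / (6 * Real.log L)⌋₊ with hm
  have hmL : (m : ℝ) ≤ L / (6 * Real.log L) := Nat.floor_le (by positivity)
  have hm5 : 5000 ≤ m := by
    rw [hm]
    apply Nat.le_floor
    push_cast
    linarith
  have h2 : L / Real.log L = 6 * (L / (6 * Real.log L)) := by field_simp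
  have h3 : (5000:ℝ) ≤ m := by exact_mod_cast hm5
  have hLm : L / Real.log L ≤ 7 * m := by
    have h1 : L / (6 * Real.log L) < m + 1 := Nat.lt_floor_add_one _
    rw [h2]
    linarith
  have hex : ex N = 1 / 10000 * (L / Real.log L) := rfl
  have hex1 : ex N ≤ 7 * m / 10000 := by rw [hex]; linarith
  have hex2 : 1 ≤ ex N := by rw [hex, h2]; linarith
  refine ⟨hex2, fun A hA hcard => ?_⟩
  by_contra hcon
  have hg : ∀ s, (reps A s).card ≤ ⌊Real.exp (ex N)⌋₊ := by
    intro s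
    apply Nat.le_floor
    by_contra h
    exact hcon ⟨s, (not_le.mp h).le⟩
  have hP := adm N (by omega) m (by omega) L hL hL3 hmL hsup
  have hNpos : (0:ℝ) < N := by exact_mod_cast (show 0 < N by omega)
  have hb : Real.log (2 / (2 * Real.exp (-((m:ℝ) / 100)))) ≤ (m:ℝ) / 100 := by
    have e1 : (2:ℝ) / (2 * Real.exp (-((m:ℝ) / 100))) = Real.exp ((m:ℝ) / 100) := by
      rw [Real.exp_neg]; field_simp
    rw [e1, Real.log_exp]
  obtain ⟨S, hSP, hSj, hS⟩ := greedy N m (Pset L) A hP hA (2 * Real.exp (-((m:ℝ) / 100)))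
    (by positivity) hb (m / 100) (by omega)
  have hW := WS_le N _ A S hA (fun p hp => hP.prime p (hSP hp)) hg
  have hW' : ((∏ p ∈ S, p : ℕ) : ℝ) * (WS A S).card
      ≤ (⌊Real.exp (ex N)⌋₊ : ℝ) * (2 * (N:ℝ) ^ 2) := by exact_mod_cast hW
  refine endgame m hm5 N A.card _ hNpos ?_ ?_ (hS.trans hW')
  · refine le_trans ?_ hcard
    refine mul_le_mul_of_nonneg_left ?_ hNpos.le
    apply Real.exp_le_exp.mpr
    linarith
  · refine (Nat.floor_le (Real.exp_pos _).le).trans ?_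
    exact Real.exp_le_exp.mpr hex1

/-- Sidon sets have at most two ordered representations. -/
lemma reps_le_two (A : Finset ℕ) (hSid : IsSidon {s | ∃ a ∈ A, s = a ^ 2}) (s : ℕ) :
    (reps A s).card ≤ 2 := by
  by_cases hne : (reps A s).Nonempty
  · obtain ⟨ab, hab⟩ := hne
    have hab' : (ab.1 ∈ A ∧ ab.2 ∈ A) ∧ ab.1 ^ 2 + ab.2 ^ 2 = s := by
      unfold reps at hab
      rwa [Finset.mem_filter, Finset.mem_product] at hab
    have hsub : reps A s ⊆ {ab, (ab.2, ab.1)} := by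
      intro nm hnm
      unfold reps at hnm
      rw [Finset.mem_filter, Finset.mem_product] at hnm
      have h1 : nm.1 ^ 2 + nm.2 ^ 2 = ab.1 ^ 2 + ab.2 ^ 2 := hnm.2.trans hab'.2.symm
      rw [Finset.mem_insert, Finset.mem_singleton]
      have sqinj : ∀ x y : ℕ, x ^ 2 = y ^ 2 → x = y := fun x y h =>
        Nat.pow_left_injective two_ne_zero h
      rcases hSid _ ⟨nm.1, hnm.1.1, rfl⟩ _ ⟨nm.2, hnm.1.2, rfl⟩ _ ⟨ab.1, hab'.1.1, rfl⟩ _
        ⟨ab.2, hab'.1.2, rfl⟩ h1 with h | h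
      · left
        exact Prod.ext (sqinj _ _ h.1) (sqinj _ _ h.2)
      · right
        exact Prod.ext (sqinj _ _ h.1) (sqinj _ _ h.2)
    exact (Finset.card_le_card hsub).trans Finset.card_le_two
  · rw [Finset.not_nonempty_iff_eq_empty.mp hne]
    simp

lemma two_lt_exp {x : ℝ} (hx : 1 ≤ x) : 2 < Real.exp x := by
  have h1 := Real.exp_one_gt_d9
  have h2 := Real.exp_le_exp.mpr hx
  linarith

/-- **Covering form.** -/
theorem covering : ∃ N₀ : ℕ, ∀ N : ℕ, N₀ ≤ N → ∀ (k : ℕ) (X : Fin k → Set ℕ),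
    (∀ i, IsSidon (X i)) → (∀ n, 1 ≤ n → n ≤ N → ∃ i, n ^ 2 ∈ X i) →
    Real.exp (ex N) ≤ k := by
  classical
  obtain ⟨N₀, hN₀1, hN₀⟩ := popular
  refine ⟨N₀, fun N hN k X hX hcov => ?_⟩
  obtain ⟨hex, hpop⟩ := hN₀ N hN
  have hNpos : (0:ℝ) < N := by exact_mod_cast (show 0 < N by omega)
  by_contra hcon
  have hcon := not_le.mp hcon
  have hkpos : 0 < k := by
    obtain ⟨i, _⟩ := hcov 1 le_rfl (by omega)
    exact i.pos
  have hkpos' : (0:ℝ) < k := by exact_mod_cast hkpos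
  -- a class with at least `N / k` elements
  have hex2 : ∃ i : Fin k, (N : ℝ) / k ≤ (((Icc 1 N).filter (fun n => n ^ 2 ∈ X i)).card : ℝ) := by
    by_contra hno
    have hlt : ∀ i ∈ (Finset.univ : Finset (Fin k)),
        (((Icc 1 N).filter (fun n => n ^ 2 ∈ X i)).card : ℝ) < (N : ℝ) / k := by
      intro i _
      by_contra h
      exact hno ⟨i, not_lt.mp h⟩
    have hsum := Finset.sum_lt_sum_of_nonempty
      (⟨⟨0, hkpos⟩, Finset.mem_univ _⟩ : (Finset.univ : Finset (Fin k)).Nonempty) hlt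
    rw [Finset.sum_const, Finset.card_univ, Fintype.card_fin, nsmul_eq_mul,
      mul_div_cancel₀ _ hkpos'.ne'] at hsum
    have hsub : Icc 1 N ⊆ (Finset.univ : Finset (Fin k)).biUnion
        (fun i => (Icc 1 N).filter (fun n => n ^ 2 ∈ X i)) := by
      intro n hn
      have hn' := Finset.mem_Icc.mp hn
      obtain ⟨i, hi⟩ := hcov n hn'.1 hn'.2
      rw [Finset.mem_biUnion]
      exact ⟨i, Finset.mem_univ _, Finset.mem_filter.mpr ⟨hn, hi⟩⟩
    have h1 := (Finset.card_le_card hsub).trans Finset.card_biUnion_le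
    rw [Nat.card_Icc, Nat.add_sub_cancel] at h1
    have h2 : (N : ℝ) ≤ ∑ i : Fin k, (((Icc 1 N).filter (fun n => n ^ 2 ∈ X i)).card : ℝ) := by
      exact_mod_cast h1
    linarith
  obtain ⟨i, hi⟩ := hex2
  set A := (Icc 1 N).filter (fun n => n ^ 2 ∈ X i) with hA
  have hSid : IsSidon {s | ∃ a ∈ A, s = a ^ 2} := by
    have hsub : ∀ s ∈ {s | ∃ a ∈ A, s = a ^ 2}, s ∈ X i := by
      rintro s ⟨a, ha, rfl⟩
      exact (Finset.mem_filter.mp ha).2
    intro a ha b hb c hc d hd h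
    exact hX i a (hsub a ha) b (hsub b hb) c (hsub c hc) d (hsub d hd) h
  obtain ⟨s, hs⟩ := hpop A (Finset.filter_subset _ _) (by
    refine le_trans ?_ hi
    rw [Real.exp_neg, ← div_eq_mul_inv]
    exact div_le_div_of_nonneg_left hNpos.le hkpos' hcon.le)
  have h1 : ((reps A s).card : ℝ) ≤ 2 := by exact_mod_cast reps_le_two A hSid s
  have h2 := two_lt_exp hex
  linarith

lemma tendsto_ex : Tendsto ex atTop atTop := by
  have h1 : Tendsto (fun L : ℝ => L / Real.log L) atTop atTop := by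
    have h2 : Tendsto (fun L : ℝ => Real.log L / L) atTop (𝓝[>] 0) := by
      rw [tendsto_nhdsWithin_iff]
      constructor
      · have := Real.isLittleO_log_id_atTop.tendsto_div_nhds_zero
        simpa using this
      · filter_upwards [eventually_gt_atTop (1:ℝ)] with L hL
        exact div_pos (Real.log_pos hL) (by linarith)
    have h3 := h2.inv_tendsto_nhdsGT_zero
    refine h3.congr fun L => ?_
    simp [inv_div]
  have h4 : Tendsto (fun N : ℕ => Real.log (N : ℝ)) atTop atTop :=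
    Real.tendsto_log_atTop.comp tendsto_natCast_atTop_atTop
  have h5 := (h1.comp h4).const_mul_atTop (show (0:ℝ) < 1 / 10000 by norm_num)
  exact h5

/-- **The squares are not a finite union of Sidon sets.** -/
theorem not_finite_union : ¬ ∃ (k : ℕ) (X : Fin k → Set ℕ), (∀ i, IsSidon (X i)) ∧
    (⋃ i, X i) = {s | ∃ n : ℕ, 1 ≤ n ∧ s = n ^ 2} := by
  rintro ⟨k, X, hX, hU⟩
  obtain ⟨N₀, hN₀⟩ := covering
  have h1 : ∀ᶠ N : ℕ in atTop, (k : ℝ) < ex N := tendsto_ex.eventually_gt_atTop _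
  obtain ⟨N, hN, hN'⟩ := (h1.and (eventually_ge_atTop N₀)).exists
  have h2 := hN₀ N hN' k X hX (by
    intro n hn1 _
    have : n ^ 2 ∈ ⋃ i, X i := by rw [hU]; exact ⟨n, hn1, rfl⟩
    exact Set.mem_iUnion.mp this)
  have h3 := Real.add_one_le_exp (ex N)
  linarith

end

end Pool.Agent.SQS
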